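import Pool.Agent.D0H68.RV.Fin
import Pool.Agent.Helper213.PNT

set_option autoImplicit false

open MeasureTheory ProbabilityTheory Filter Topology Finset

namespace Pool.Agent.D0H68.RV

section

variable {Ω : Type*} [mΩ : MeasurableSpace Ω] {μ : Measure Ω} [IsProbabilityMeasure μ]

theorem VV_eq {v w : ℕ → ℝ} (h : ∀ n, v n = w n) (X : ℝ) : VV v X = VV w X := by
  rw [show v = w from funext h]

omit [IsProbabilityMeasure μ] in
theorem ind_mean {E : Set Ω} (hE : MeasurableSet E) (c : ℝ) :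
    ∫ ω, E.indicator (fun _ => c) ω ∂μ = c * μ.real E := by
  rw [integral_indicator_const _ hE, smul_eq_mul, mul_comm]

theorem ind_var {E : Set Ω} (hE : MeasurableSet E) (c : ℝ) :
    ∫ ω, (E.indicator (fun _ => c) ω - ∫ ω', E.indicator (fun _ => c) ω' ∂μ) ^ 2 ∂μ =
      c ^ 2 * (μ.real E * (1 - μ.real E)) := by
  rw [ind_mean hE c]
  obtain ⟨p, hp⟩ : ∃ p, p = μ.real E := ⟨_, rfl⟩
  rw [← hp]
  have h : ∀ ω, (E.indicator (fun _ => c) ω - c * p) ^ 2 =
      E.indicator (fun _ => c ^ 2 - 2 * c * (c * p)) ω + (c * p) ^ 2 := by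
    intro ω
    by_cases hω : ω ∈ E
    · rw [Set.indicator_of_mem hω, Set.indicator_of_mem hω]; ring
    · rw [Set.indicator_of_notMem hω, Set.indicator_of_notMem hω]; ring
  simp_rw [h]
  rw [integral_add ((integrable_const _).indicator hE) (integrable_const _), ind_mean hE, ← hp]
  simp
  ring

omit [IsProbabilityMeasure μ] in
theorem ind_indep {E : ℕ → Set Ω} (hi : iIndepSet E μ) (c : ℕ → ℝ) :
    iIndepFun (fun n => (E n).indicator (fun _ => c n)) μ := by
  have h := hi.iIndepFun_indicator (β := ℝ) (m := inferInstance)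
  have h2 := h.comp (fun n x => c n * x) (fun n => measurable_const_mul (c n))
  refine (iIndepFun_congr fun n => ?_).1 h2
  refine Eventually.of_forall fun ω => ?_
  by_cases hω : ω ∈ E n
  · simp [Function.comp, Set.indicator_of_mem hω]
  · simp [Function.comp, Set.indicator_of_notMem hω]

/-- random sets of independent events -/
theorem random_sets {E : ℕ → Set Ω} (hE : ∀ n, MeasurableSet (E n)) (hi : iIndepSet E μ) {ϑ : ℝ} (hϑ : ϑ < 1)
    (hp : ∀ᶠ n in atTop, μ.real (E n) ≤ ϑ)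
    (hd : Tendsto (fun X : ℝ => (1 / X) * ∑ n ∈ Ioc ⌊X⌋₊ ⌊2 * X⌋₊, μ.real (E n) * Real.log n) atTop (𝓝 1)) :
    ∀ᵐ ω ∂μ, ¬ Law (fun n => (E n).indicator (fun _ => Real.log n) ω) ∧
      ∀ ε : ℝ, 0 < ε → ∀ᶠ X : ℝ in atTop, ∀ H : ℝ, X ^ ε ≤ H → H ≤ X ^ (1 - ε) →
        (1 - ϑ - ε) * (H * Real.log X) ≤ msq (fun n => (E n).indicator (fun _ => Real.log n) ω) X H := by
  have hb : ∀ (n : ℕ) (ω : Ω), |(E n).indicator (fun _ => Real.log n) ω| ≤ 1 * Real.log (n + 3) ^ 1 := by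
    intro n ω
    have hn : (0 : ℝ) ≤ n := Nat.cast_nonneg n
    have h0 : 0 ≤ Real.log (n + 3) := Real.log_nonneg (by linarith)
    by_cases hω : ω ∈ E n
    · rw [Set.indicator_of_mem hω, pow_one, one_mul, abs_of_nonneg (Real.log_natCast_nonneg n)]
      rcases Nat.eq_zero_or_pos n with h | h
      · subst h; simp; exact Real.log_nonneg (by norm_num)
      · have : (0 : ℝ) < n := by exact_mod_cast h
        exact Real.log_le_log this (by linarith)
    · rw [Set.indicator_of_notMem hω]; simpa using h0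
  have hex := exact_ae (μ := μ) (ind_indep hi (fun n => Real.log n))
    (fun n => measurable_const.indicator (hE n)) (C := 1) zero_le_one 1 hb
  have hV : ∀ ε : ℝ, 0 < ε → ∀ᶠ X : ℝ in atTop, ((1 - ϑ) - ε) * Real.log X ≤
      VV (fun n => ∫ ω', ((E n).indicator (fun _ => Real.log n) ω' -
        ∫ ω'', (E n).indicator (fun _ => Real.log n) ω'' ∂μ) ^ 2 ∂μ) X := by
    intro ε hε
    obtain ⟨n0, hn0⟩ := eventually_atTop.1 hp
    have hϑ0 : 0 ≤ ϑ := measureReal_nonneg.trans (hn0 n0 le_rfl)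
    have hd1 : ∀ᶠ X : ℝ in atTop, 1 - ε <
        (1 / X) * ∑ n ∈ Ioc ⌊X⌋₊ ⌊2 * X⌋₊, μ.real (E n) * Real.log n :=
      hd.eventually (lt_mem_nhds (by linarith))
    filter_upwards [hd1, eventually_ge_atTop (max 1 (n0 : ℝ))] with X h1 hX
    have hX1 : 1 ≤ X := (le_max_left _ _).trans hX
    have hXn : (n0 : ℝ) ≤ X := (le_max_right _ _).trans hX
    have hX0 : 0 < X := by linarith
    have hlX : 0 ≤ Real.log X := Real.log_nonneg hX1
    rw [VV_eq (fun n => ind_var (hE n) (Real.log n))]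
    unfold VV
    have hterm : ∀ n ∈ Ioc ⌊X⌋₊ ⌊2 * X⌋₊, (1 - ϑ) * Real.log X * (μ.real (E n) * Real.log n) ≤
        Real.log n ^ 2 * (μ.real (E n) * (1 - μ.real (E n))) := by
      intro n hn
      have hnX : X < n := (Nat.floor_lt hX0.le).1 (mem_Ioc.1 hn).1
      have hln : Real.log X ≤ Real.log n := Real.log_le_log hX0 hnX.le
      have hn0' : n0 ≤ n := by
        have : (n0 : ℝ) < n := by linarith
        exact_mod_cast this.le
      have hpn := hn0 n hn0'
      have hp0 : 0 ≤ μ.real (E n) := measureReal_nonneg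
      have hl0 : 0 ≤ Real.log n := by linarith
      have a1 : (1 - ϑ) * Real.log X ≤ (1 - μ.real (E n)) * Real.log n :=
        mul_le_mul (by linarith) hln hlX (by linarith)
      calc (1 - ϑ) * Real.log X * (μ.real (E n) * Real.log n) ≤
            (1 - μ.real (E n)) * Real.log n * (μ.real (E n) * Real.log n) :=
            mul_le_mul_of_nonneg_right a1 (mul_nonneg hp0 hl0)
        _ = _ := by ring
    have hsum := Finset.sum_le_sum hterm
    rw [← Finset.mul_sum] at hsum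
    calc ((1 - ϑ) - ε) * Real.log X ≤ (1 - ϑ) * Real.log X * (1 - ε) := by
          have : ϑ * ε * Real.log X ≥ 0 := by positivity
          nlinarith
      _ ≤ (1 - ϑ) * Real.log X * ((1 / X) * ∑ n ∈ Ioc ⌊X⌋₊ ⌊2 * X⌋₊, μ.real (E n) * Real.log n) :=
          mul_le_mul_of_nonneg_left h1.le (mul_nonneg (by linarith) hlX)
      _ = (1 / X) * ((1 - ϑ) * Real.log X * ∑ n ∈ Ioc ⌊X⌋₊ ⌊2 * X⌋₊, μ.real (E n) * Real.log n) := by ring
      _ ≤ _ := mul_le_mul_of_nonneg_left hsum (by positivity)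
  filter_upwards [hex] with ω hω
  exact ⟨not_law hω (by linarith) hV, lower hω hV⟩

/-- independent perturbations of the von Mangoldt function -/
theorem perturb {η : ℕ → Ω → ℝ} (hi : iIndepFun η μ) (hm : ∀ n, Measurable (η n)) {B : ℝ}
    (hb : ∀ n ω, |η n ω| ≤ B) (h1 : ∀ n, ∫ ω, η n ω ∂μ = 1) :
    ∀ᵐ ω ∂μ, Exact (fun n => ArithmeticFunction.vonMangoldt n * η n ω)
      (fun n => ArithmeticFunction.vonMangoldt n)
      (fun n => ArithmeticFunction.vonMangoldt n ^ 2 * ∫ ω', (η n ω' - 1) ^ 2 ∂μ) := by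
  have hΩ : Nonempty Ω := by
    by_contra h
    rw [not_nonempty_iff] at h
    have h2 := h1 0
    have : μ = 0 := Measure.eq_zero_of_isEmpty μ
    rw [this] at h2
    simp at h2
  obtain ⟨ω0⟩ := hΩ
  have hB0 : 0 ≤ B := (abs_nonneg _).trans (hb 0 ω0)
  have hi' : iIndepFun (fun n ω => ArithmeticFunction.vonMangoldt n * η n ω) μ :=
    hi.comp (fun n x => ArithmeticFunction.vonMangoldt n * x) (fun n => measurable_const_mul _)
  have hb' : ∀ (n : ℕ) (ω : Ω), |ArithmeticFunction.vonMangoldt n * η n ω| ≤ B * Real.log (n + 3) ^ 1 := by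
    intro n ω
    have hn : (0 : ℝ) ≤ n := Nat.cast_nonneg n
    rw [abs_mul, pow_one, mul_comm, abs_of_nonneg ArithmeticFunction.vonMangoldt_nonneg]
    refine mul_le_mul (hb n ω) ?_ ArithmeticFunction.vonMangoldt_nonneg hB0
    refine ArithmeticFunction.vonMangoldt_le_log.trans ?_
    rcases Nat.eq_zero_or_pos n with h | h
    · subst h; simp; exact Real.log_nonneg (by norm_num)
    · have : (0 : ℝ) < n := by exact_mod_cast h
      exact Real.log_le_log this (by linarith)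
  have hex := exact_ae (μ := μ) hi' (fun n => (hm n).const_mul _) hB0 1 hb'
  have e1 : (fun n : ℕ => ∫ ω', ArithmeticFunction.vonMangoldt n * η n ω' ∂μ) =
      fun n => ArithmeticFunction.vonMangoldt n := by
    funext n
    rw [integral_const_mul, h1, mul_one]
  have e2 : (fun n : ℕ => ∫ ω', (ArithmeticFunction.vonMangoldt n * η n ω' -
      ∫ ω'', ArithmeticFunction.vonMangoldt n * η n ω'' ∂μ) ^ 2 ∂μ) =
      fun n => ArithmeticFunction.vonMangoldt n ^ 2 * ∫ ω', (η n ω' - 1) ^ 2 ∂μ := by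
    funext n
    rw [integral_const_mul, h1, mul_one, ← integral_const_mul]
    congr 1
    funext ω'
    ring
  rw [e1, e2] at hex
  exact hex

theorem lam_sq (ε : ℝ) (hε : 0 < ε) : ∀ᶠ X : ℝ in atTop, (1 - ε) * Real.log X ≤
    (1 / X) * ∑ n ∈ Ioc ⌊X⌋₊ ⌊2 * X⌋₊, ArithmeticFunction.vonMangoldt n ^ 2 := by
  have ht := Pool.Agent.Helper213.PNT.theta_div_tendsto
  have ht2 : Tendsto (fun X : ℝ => Chebyshev.theta (2 * X) / (2 * X)) atTop (𝓝 1) :=
    ht.comp (tendsto_id.const_mul_atTop (by norm_num : (0 : ℝ) < 2))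
  have h1 := ht.eventually (gt_mem_nhds (show (1 : ℝ) < 1 + ε / 3 by linarith))
  have h2 := ht2.eventually (lt_mem_nhds (show 1 - ε / 3 < (1 : ℝ) by linarith))
  filter_upwards [h1, h2, eventually_ge_atTop 1] with X a1 a2 hX
  have hX0 : 0 < X := by linarith
  have hlX : 0 ≤ Real.log X := Real.log_nonneg hX
  rw [div_lt_iff₀ hX0] at a1
  rw [lt_div_iff₀ (by linarith)] at a2
  have hθ : Chebyshev.theta (2 * X) - Chebyshev.theta X =
      ∑ n ∈ Ioc ⌊X⌋₊ ⌊2 * X⌋₊, (if n.Prime then Real.log n else 0) := by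
    unfold Chebyshev.theta
    rw [Finset.sum_filter, Finset.sum_filter, ← Finset.sum_Ioc_consecutive _ (Nat.zero_le ⌊X⌋₊)
      (Nat.floor_le_floor (show X ≤ 2 * X by linarith))]
    ring
  have hterm : ∀ n ∈ Ioc ⌊X⌋₊ ⌊2 * X⌋₊, Real.log X * (if n.Prime then Real.log n else 0) ≤
      ArithmeticFunction.vonMangoldt n ^ 2 := by
    intro n hn
    have hnX : X < n := (Nat.floor_lt hX0.le).1 (mem_Ioc.1 hn).1
    have hln : Real.log X ≤ Real.log n := Real.log_le_log hX0 hnX.le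
    split_ifs with hpn
    · rw [ArithmeticFunction.vonMangoldt_apply_prime hpn, sq]
      exact mul_le_mul_of_nonneg_right hln (by linarith)
    · rw [mul_zero]; positivity
  have hsum := Finset.sum_le_sum hterm
  rw [← Finset.mul_sum, ← hθ] at hsum
  have h3 : (1 - ε) * X ≤ Chebyshev.theta (2 * X) - Chebyshev.theta X := by linarith
  calc (1 - ε) * Real.log X = (1 / X) * (Real.log X * ((1 - ε) * X)) := by field_simp
    _ ≤ (1 / X) * (Real.log X * (Chebyshev.theta (2 * X) - Chebyshev.theta X)) :=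
        mul_le_mul_of_nonneg_left (mul_le_mul_of_nonneg_left h3 hlX) (by positivity)
    _ ≤ _ := mul_le_mul_of_nonneg_left hsum (by positivity)

theorem lam_sq_le : ∀ᶠ X : ℝ in atTop,
    (1 / X) * ∑ n ∈ Ioc ⌊X⌋₊ ⌊2 * X⌋₊, ArithmeticFunction.vonMangoldt n ^ 2 ≤ 4 * Real.log X := by
  have ht := Pool.Agent.Helper213.PNT.psi_div_tendsto
  have ht2 : Tendsto (fun X : ℝ => Chebyshev.psi (2 * X) / (2 * X)) atTop (𝓝 1) :=
    ht.comp (tendsto_id.const_mul_atTop (by norm_num : (0 : ℝ) < 2))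
  have h1 := ht.eventually (lt_mem_nhds (show (3 / 4 : ℝ) < 1 by norm_num))
  have h2 := ht2.eventually (gt_mem_nhds (show (1 : ℝ) < 5 / 4 by norm_num))
  filter_upwards [h1, h2, eventually_ge_atTop 2] with X a1 a2 hX
  have hX0 : 0 < X := by linarith
  have hlX : 0 ≤ Real.log X := Real.log_nonneg (by linarith)
  rw [lt_div_iff₀ hX0] at a1
  rw [div_lt_iff₀ (by linarith)] at a2
  have hψ : Chebyshev.psi (2 * X) - Chebyshev.psi X =
      ∑ n ∈ Ioc ⌊X⌋₊ ⌊2 * X⌋₊, ArithmeticFunction.vonMangoldt n := by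
    unfold Chebyshev.psi
    rw [← Finset.sum_Ioc_consecutive _ (Nat.zero_le ⌊X⌋₊)
      (Nat.floor_le_floor (show X ≤ 2 * X by linarith))]
    ring
  have hterm : ∀ n ∈ Ioc ⌊X⌋₊ ⌊2 * X⌋₊, ArithmeticFunction.vonMangoldt n ^ 2 ≤
      (2 * Real.log X) * ArithmeticFunction.vonMangoldt n := by
    intro n hn
    have hnX : X < n := (Nat.floor_lt hX0.le).1 (mem_Ioc.1 hn).1
    have hn2 : (n : ℝ) ≤ 2 * X := (Nat.le_floor_iff (by linarith)).1 (mem_Ioc.1 hn).2
    have hl : ArithmeticFunction.vonMangoldt n ≤ 2 * Real.log X := by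
      refine ArithmeticFunction.vonMangoldt_le_log.trans ?_
      have h4 : Real.log n ≤ Real.log (X * X) := Real.log_le_log (by linarith) (by nlinarith)
      rw [Real.log_mul hX0.ne' hX0.ne'] at h4
      linarith
    rw [sq]
    exact mul_le_mul_of_nonneg_right hl ArithmeticFunction.vonMangoldt_nonneg
  have hsum := Finset.sum_le_sum hterm
  rw [← Finset.mul_sum, ← hψ] at hsum
  calc (1 / X) * ∑ n ∈ Ioc ⌊X⌋₊ ⌊2 * X⌋₊, ArithmeticFunction.vonMangoldt n ^ 2 ≤
        (1 / X) * (2 * Real.log X * (Chebyshev.psi (2 * X) - Chebyshev.psi X)) :=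
        mul_le_mul_of_nonneg_left hsum (by positivity)
    _ ≤ (1 / X) * (2 * Real.log X * (2 * X)) := by
        refine mul_le_mul_of_nonneg_left (mul_le_mul_of_nonneg_left (by linarith) (by linarith)) (by positivity)
    _ = 4 * Real.log X := by field_simp; ring

/-- variances tending to zero do not matter -/
theorem V_small {w : ℕ → ℝ} (hw : Tendsto w atTop (𝓝 0)) :
    ∀ δ : ℝ, 0 < δ → ∀ᶠ X : ℝ in atTop, VV (fun n => ArithmeticFunction.vonMangoldt n ^ 2 * w n) X ≤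
      δ * Real.log X := by
  intro δ hδ
  obtain ⟨n0, hn0⟩ := eventually_atTop.1 (hw.eventually (gt_mem_nhds (show (0 : ℝ) < δ / 4 by linarith)))
  filter_upwards [lam_sq_le, eventually_ge_atTop (max 1 (n0 : ℝ))] with X h1 hX
  have hX1 : 1 ≤ X := (le_max_left _ _).trans hX
  have hXn : (n0 : ℝ) ≤ X := (le_max_right _ _).trans hX
  have hX0 : 0 < X := by linarith
  unfold VV
  have hterm : ∀ n ∈ Ioc ⌊X⌋₊ ⌊2 * X⌋₊, ArithmeticFunction.vonMangoldt n ^ 2 * w n ≤
      (δ / 4) * ArithmeticFunction.vonMangoldt n ^ 2 := by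
    intro n hn
    have hnX : X < n := (Nat.floor_lt hX0.le).1 (mem_Ioc.1 hn).1
    have hn0' : n0 ≤ n := by
      have : (n0 : ℝ) < n := by linarith
      exact_mod_cast this.le
    rw [mul_comm]
    exact mul_le_mul_of_nonneg_right (hn0 n hn0').le (sq_nonneg _)
  have hsum := Finset.sum_le_sum hterm
  rw [← Finset.mul_sum] at hsum
  calc (1 / X) * ∑ n ∈ Ioc ⌊X⌋₊ ⌊2 * X⌋₊, ArithmeticFunction.vonMangoldt n ^ 2 * w n ≤
        (1 / X) * (δ / 4 * ∑ n ∈ Ioc ⌊X⌋₊ ⌊2 * X⌋₊, ArithmeticFunction.vonMangoldt n ^ 2) :=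
        mul_le_mul_of_nonneg_left hsum (by positivity)
    _ = δ / 4 * ((1 / X) * ∑ n ∈ Ioc ⌊X⌋₊ ⌊2 * X⌋₊, ArithmeticFunction.vonMangoldt n ^ 2) := by ring
    _ ≤ δ / 4 * (4 * Real.log X) := mul_le_mul_of_nonneg_left h1 (by linarith)
    _ = δ * Real.log X := by ring

/-- variances bounded below matter -/
theorem V_large {w : ℕ → ℝ} {s : ℝ} (hs : 0 < s) (hw : ∀ᶠ n in atTop, s ≤ w n) :
    ∀ ε : ℝ, 0 < ε → ∀ᶠ X : ℝ in atTop, (s - ε) * Real.log X ≤
      VV (fun n => ArithmeticFunction.vonMangoldt n ^ 2 * w n) X := by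
  intro ε hε
  obtain ⟨n0, hn0⟩ := eventually_atTop.1 hw
  filter_upwards [lam_sq (ε / s) (by positivity), eventually_ge_atTop (max 1 (n0 : ℝ))] with X h1 hX
  have hX1 : 1 ≤ X := (le_max_left _ _).trans hX
  have hXn : (n0 : ℝ) ≤ X := (le_max_right _ _).trans hX
  have hX0 : 0 < X := by linarith
  unfold VV
  have hterm : ∀ n ∈ Ioc ⌊X⌋₊ ⌊2 * X⌋₊, s * ArithmeticFunction.vonMangoldt n ^ 2 ≤
      ArithmeticFunction.vonMangoldt n ^ 2 * w n := by
    intro n hn
    have hnX : X < n := (Nat.floor_lt hX0.le).1 (mem_Ioc.1 hn).1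
    have hn0' : n0 ≤ n := by
      have : (n0 : ℝ) < n := by linarith
      exact_mod_cast this.le
    rw [mul_comm]
    exact mul_le_mul_of_nonneg_left (hn0 n hn0') (sq_nonneg _)
  have hsum := Finset.sum_le_sum hterm
  rw [← Finset.mul_sum] at hsum
  have e2 : ε / s * s = ε := div_mul_cancel₀ ε hs.ne'
  calc (s - ε) * Real.log X = (s - ε / s * s) * Real.log X := by rw [e2]
    _ = s * ((1 - ε / s) * Real.log X) := by ring
    _ ≤ s * ((1 / X) * ∑ n ∈ Ioc ⌊X⌋₊ ⌊2 * X⌋₊, ArithmeticFunction.vonMangoldt n ^ 2) :=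
        mul_le_mul_of_nonneg_left h1 hs.le
    _ = (1 / X) * (s * ∑ n ∈ Ioc ⌊X⌋₊ ⌊2 * X⌋₊, ArithmeticFunction.vonMangoldt n ^ 2) := by ring
    _ ≤ _ := mul_le_mul_of_nonneg_left hsum (by positivity)

end

end Pool.Agent.D0H68.RV
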