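import Pool.Agent.D0H68.RV.Ev

set_option autoImplicit false

open MeasureTheory ProbabilityTheory Finset Filter
open scoped NNReal ENNReal

namespace Pool.Agent.D0H68.RV

variable {Ω : Type*} [mΩ : MeasurableSpace Ω] {μ : Measure Ω} [IsProbabilityMeasure μ]

/-- the good event at the scale `N` -/
structure Good (N : ℕ) (Lm δ b y : ℝ) (Y m : ℕ → ℝ) (e : ℕ → ℕ → ℝ) : Prop where
  g1 : ∀ L s : ℕ, 1 ≤ L → (L : ℝ) ≤ Lm → s + L ≤ 3 * N → win Y s L ^ 2 ≤ L * b ^ 2 * y ^ 2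
  g2 : ∀ L s K : ℕ, 1 ≤ L → (L : ℝ) ≤ Lm → s + K * L ≤ 3 * N →
    |∑ k ∈ range K, (tr (L * b ^ 2 * y ^ 2) (win Y (s + k * L) L) - e (s + k * L) L)| ≤ δ * N
  g3 : ∀ L s0 s1 : ℕ, 1 ≤ L → (L : ℝ) ≤ Lm → s1 + L ≤ 3 * N →
    |∑ s ∈ Ico s0 s1, (win m s L - L) * win Y s L| ≤ δ * (N * L + ∑ s ∈ Ico s0 s1, (win m s L - L) ^ 2)
  g4 : ∀ L s0 s1 : ℕ, 1 ≤ L → (L : ℝ) ≤ Lm → s1 + L ≤ 3 * N →
    |∑ s ∈ Ico s0 s1, win Y s L| ≤ δ * (N * L + (s1 - s0 : ℕ))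

theorem real_cond {p : Prop} {A : Set Ω} {x : ℝ} (hx : 0 ≤ x) (h : p → μ.real A ≤ x) :
    μ.real {ω | p ∧ ω ∈ A} ≤ x := by
  by_cases hp : p
  · refine (measureReal_mono ?_).trans (h hp)
    intro ω hω
    exact (show p ∧ ω ∈ A from hω).2
  · have : {ω | p ∧ ω ∈ A} = (∅ : Set Ω) := by
      ext ω
      constructor
      · intro hω; exact absurd (show p ∧ ω ∈ A from hω).1 hp
      · intro hω; exact absurd hω (Set.notMem_empty ω)
    rw [this, measureReal_empty]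
    exact hx

theorem bad_le {Y : ℕ → Ω → ℝ} (hi : iIndepFun Y μ) (hm : ∀ n, Measurable (Y n)) {b y : ℝ} (hb0 : 0 < b)
    (hy : 0 < y) {N : ℕ} (hN : 1 ≤ N) (hbd : ∀ n < 3 * N, ∀ ω, |Y n ω| ≤ b) (h0 : ∀ n, ∫ ω, Y n ω ∂μ = 0)
    (m : ℕ → ℝ) {Lm δ z : ℝ} (hδ : 0 < δ) (hz1 : z ≤ y ^ 2 / 2)
    (hz2 : ∀ L K : ℕ, 1 ≤ L → (L : ℝ) ≤ Lm → 1 ≤ K → K * L ≤ 3 * N →
      z ≤ (δ * N) ^ 2 / (2 * K * (L * b ^ 2 * y ^ 2) ^ 2))
    (hz3 : ∀ L : ℕ, 1 ≤ L → (L : ℝ) ≤ Lm → z ≤ δ ^ 2 * N / (2 * b ^ 2 * L)) :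
    μ.real {ω | ¬ Good N Lm δ b y (fun n => Y n ω) m
      (fun (s L : ℕ) => ∫ ω', tr (L * b ^ 2 * y ^ 2) (win (fun n => Y n ω') s L) ∂μ)} ≤
      (3 * N + 1 : ℕ) ^ 3 * (8 * Real.exp (-z)) := by
  obtain ⟨e, he⟩ : ∃ e : ℕ → ℕ → ℝ, e = fun (s L : ℕ) => ∫ ω', tr (L * b ^ 2 * y ^ 2) (win (fun n => Y n ω') s L) ∂μ :=
    ⟨_, rfl⟩
  rw [← he]
  have hN0 : (0 : ℝ) < N := by exact_mod_cast hN
  let A1 : ℕ × ℕ × ℕ → Set Ω := fun p => {ω | (1 ≤ p.1 ∧ (p.1 : ℝ) ≤ Lm ∧ p.2.1 + p.1 ≤ 3 * N) ∧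
    ω ∈ {ω | p.1 * b ^ 2 * y ^ 2 < win (fun n => Y n ω) p.2.1 p.1 ^ 2}}
  let A2 : ℕ × ℕ × ℕ → Set Ω := fun p => {ω | (1 ≤ p.1 ∧ (p.1 : ℝ) ≤ Lm ∧ 1 ≤ p.2.2 ∧ p.2.1 + p.2.2 * p.1 ≤ 3 * N) ∧
    ω ∈ {ω | δ * N < |∑ k ∈ range p.2.2, (tr (p.1 * b ^ 2 * y ^ 2) (win (fun n => Y n ω) (p.2.1 + k * p.1) p.1) -
      ∫ ω', tr (p.1 * b ^ 2 * y ^ 2) (win (fun n => Y n ω') (p.2.1 + k * p.1) p.1) ∂μ)|}}
  let A3 : ℕ × ℕ × ℕ → Set Ω := fun p => {ω | (1 ≤ p.1 ∧ (p.1 : ℝ) ≤ Lm ∧ p.2.2 + p.1 ≤ 3 * N) ∧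
    ω ∈ {ω | δ * (N * p.1 + ∑ s ∈ Ico p.2.1 p.2.2, (win m s p.1 - p.1) ^ 2) <
      |∑ s ∈ Ico p.2.1 p.2.2, (win m s p.1 - p.1) * win (fun n => Y n ω) s p.1|}}
  let A4 : ℕ × ℕ × ℕ → Set Ω := fun p => {ω | (1 ≤ p.1 ∧ (p.1 : ℝ) ≤ Lm ∧ p.2.2 + p.1 ≤ 3 * N) ∧
    ω ∈ {ω | δ * (N * p.1 + ∑ s ∈ Ico p.2.1 p.2.2, (1 : ℝ) ^ 2) <
      |∑ s ∈ Ico p.2.1 p.2.2, 1 * win (fun n => Y n ω) s p.1|}}
  let I : Finset (ℕ × ℕ × ℕ) := range (3 * N + 1) ×ˢ (range (3 * N + 1) ×ˢ range (3 * N + 1))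
  have hsub : {ω | ¬ Good N Lm δ b y (fun n => Y n ω) m e} ⊆ ⋃ p ∈ I, (A1 p ∪ A2 p ∪ A3 p ∪ A4 p) := by
    intro ω hω
    by_contra hcon
    apply hω
    have hno : ∀ p ∈ I, ω ∉ A1 p ∧ ω ∉ A2 p ∧ ω ∉ A3 p ∧ ω ∉ A4 p := by
      intro p hp
      have h : ω ∉ A1 p ∪ A2 p ∪ A3 p ∪ A4 p := fun h => hcon (Set.mem_iUnion₂.2 ⟨p, hp, h⟩)
      refine ⟨fun h1 => h (Or.inl (Or.inl (Or.inl h1))), fun h1 => h (Or.inl (Or.inl (Or.inr h1))),
        fun h1 => h (Or.inl (Or.inr h1)), fun h1 => h (Or.inr h1)⟩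
    have hI : ∀ L s r : ℕ, L ≤ 3 * N → s ≤ 3 * N → r ≤ 3 * N → (L, s, r) ∈ I := by
      intro L s r h1 h2 h3
      simp only [I, mem_product, mem_range]
      omega
    constructor
    · intro L s h1 h2 h3
      by_contra hc
      exact (hno (L, s, 0) (hI _ _ _ (by omega) (by omega) (by omega))).1 ⟨⟨h1, h2, h3⟩, not_le.1 hc⟩
    · intro L s K h1 h2 h3
      rcases Nat.eq_zero_or_pos K with hK | hK
      · subst hK; simp; positivity
      by_contra hc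
      have hKL : K ≤ K * L := Nat.le_mul_of_pos_right K h1
      have hLK : L ≤ K * L := Nat.le_mul_of_pos_left L hK
      refine (hno (L, s, K) (hI _ _ _ (by omega) (by omega) (by omega))).2.1 ⟨⟨h1, h2, hK, h3⟩, ?_⟩
      rw [he] at hc
      exact not_le.1 hc
    · intro L s0 s1 h1 h2 h3
      rcases le_or_gt s1 s0 with h | h
      · rw [Ico_eq_empty (by omega)]; simp; positivity
      by_contra hc
      exact (hno (L, s0, s1) (hI _ _ _ (by omega) (by omega) (by omega))).2.2.1 ⟨⟨h1, h2, h3⟩, not_le.1 hc⟩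
    · intro L s0 s1 h1 h2 h3
      rcases le_or_gt s1 s0 with h | h
      · rw [Ico_eq_empty (by omega)]; simp; positivity
      by_contra hc
      refine (hno (L, s0, s1) (hI _ _ _ (by omega) (by omega) (by omega))).2.2.2 ⟨⟨h1, h2, h3⟩, ?_⟩
      show δ * (N * L + ∑ s ∈ Ico s0 s1, (1 : ℝ) ^ 2) < |∑ s ∈ Ico s0 s1, 1 * win (fun n => Y n ω) s L|
      simp only [one_pow, sum_const, nsmul_eq_mul, mul_one, one_mul, Nat.card_Ico]
      exact not_le.1 hc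
  have hexp : 0 ≤ 2 * Real.exp (-z) := by positivity
  have h1 : ∀ p, μ.real (A1 p) ≤ 2 * Real.exp (-z) := fun p => real_cond hexp fun hp =>
    (E1 hi hm hb0 hy.le hbd h0 p.2.1 p.1 hp.1 hp.2.2).trans
      (mul_le_mul_of_nonneg_left (Real.exp_le_exp.2 (neg_le_neg hz1)) (by norm_num))
  have h2 : ∀ p, μ.real (A2 p) ≤ 2 * Real.exp (-z) := fun p => real_cond hexp fun hp => by
    have hL0 : (0 : ℝ) < p.1 := by exact_mod_cast hp.1
    exact (E2 hi hm (T := p.1 * b ^ 2 * y ^ 2) (by positivity) p.2.1 p.1 p.2.2 hp.2.2.1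
      (t := δ * N) (by positivity)).trans
      (mul_le_mul_of_nonneg_left (Real.exp_le_exp.2 (neg_le_neg
        (hz2 p.1 p.2.2 hp.1 hp.2.1 hp.2.2.1 (by have := hp.2.2.2; omega)))) (by norm_num))
  have h3 : ∀ p, μ.real (A3 p) ≤ 2 * Real.exp (-z) := fun p => real_cond hexp fun hp =>
    (E3 hi hm hb0 hbd h0 (fun s => win m s p.1 - p.1) p.2.1 p.2.2 p.1 hp.1 hN hp.2.2 hδ.le).trans
      (mul_le_mul_of_nonneg_left (Real.exp_le_exp.2 (neg_le_neg (hz3 p.1 hp.1 hp.2.1))) (by norm_num))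
  have h4 : ∀ p, μ.real (A4 p) ≤ 2 * Real.exp (-z) := fun p => real_cond hexp fun hp =>
    (E3 hi hm hb0 hbd h0 (fun _ => (1 : ℝ)) p.2.1 p.2.2 p.1 hp.1 hN hp.2.2 hδ.le).trans
      (mul_le_mul_of_nonneg_left (Real.exp_le_exp.2 (neg_le_neg (hz3 p.1 hp.1 hp.2.1))) (by norm_num))
  calc μ.real {ω | ¬ Good N Lm δ b y (fun n => Y n ω) m e}
      ≤ μ.real (⋃ p ∈ I, (A1 p ∪ A2 p ∪ A3 p ∪ A4 p)) := measureReal_mono hsub (measure_ne_top _ _)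
    _ ≤ ∑ p ∈ I, μ.real (A1 p ∪ A2 p ∪ A3 p ∪ A4 p) := measureReal_biUnion_finset_le _ _
    _ ≤ ∑ p ∈ I, 8 * Real.exp (-z) := by
        refine Finset.sum_le_sum fun p _ => ?_
        have a1 := measureReal_union_le (μ := μ) (A1 p ∪ A2 p ∪ A3 p) (A4 p)
        have a2 := measureReal_union_le (μ := μ) (A1 p ∪ A2 p) (A3 p)
        have a3 := measureReal_union_le (μ := μ) (A1 p) (A2 p)
        linarith [h1 p, h2 p, h3 p, h4 p]
    _ = (3 * N + 1 : ℕ) ^ 3 * (8 * Real.exp (-z)) := by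
        rw [Finset.sum_const, nsmul_eq_mul]
        simp only [I, card_product, card_range]
        push_cast
        ring

theorem num (ε δ C : ℝ) (κ : ℕ) (hε : 0 < ε) (hδ : 0 < δ) (hC : 1 ≤ C) :
    ∀ᶠ N : ℕ in atTop, 1 ≤ N ∧ 1 ≤ C * Real.log (3 * N + 3) ^ κ ∧
      C * Real.log (3 * N + 3) ^ κ ≤ (N : ℝ) ^ (ε / 16) ∧ 6 ≤ δ ^ 2 * (N : ℝ) ^ (ε / 16) ∧
      16 * Real.log N ≤ ((N : ℝ) ^ (ε / 16)) ^ 2 ∧ 1 ≤ (N : ℝ) ^ (ε / 16) := by
  have h1 : ∀ᶠ x : ℝ in atTop, C * Real.log x ^ κ ≤ x ^ (ε / 32) := by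
    have h := (isLittleO_log_rpow_rpow_atTop (κ : ℝ) (show 0 < ε / 32 by positivity)).bound
      (show 0 < 1 / C by positivity)
    filter_upwards [h, eventually_ge_atTop 1] with x hx hx1
    have hl : 0 ≤ Real.log x := Real.log_nonneg hx1
    rw [Real.norm_of_nonneg (by positivity), Real.norm_of_nonneg (by positivity), Real.rpow_natCast] at hx
    calc C * Real.log x ^ κ ≤ C * (1 / C * x ^ (ε / 32)) := mul_le_mul_of_nonneg_left hx (by positivity)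
      _ = x ^ (ε / 32) := by field_simp
  have hcast : Tendsto (fun N : ℕ => (N : ℝ)) atTop atTop := tendsto_natCast_atTop_atTop
  have ht3 : Tendsto (fun N : ℕ => (3 * N + 3 : ℝ)) atTop atTop :=
    tendsto_atTop_add_const_right _ _ (hcast.const_mul_atTop (by norm_num))
  have h2 := ht3.eventually h1
  have hp : Tendsto (fun N : ℕ => (N : ℝ) ^ (ε / 16)) atTop atTop :=
    (tendsto_rpow_atTop (show 0 < ε / 16 by positivity)).comp hcast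
  have h3 := hp.eventually (eventually_ge_atTop (6 / δ ^ 2))
  have h4 : ∀ᶠ x : ℝ in atTop, 16 * Real.log x ≤ x ^ (ε / 8) := by
    have h := (isLittleO_log_rpow_atTop (show 0 < ε / 8 by positivity)).bound
      (show (0 : ℝ) < 1 / 16 by norm_num)
    filter_upwards [h, eventually_ge_atTop 1] with x hx hx1
    have hl : 0 ≤ Real.log x := Real.log_nonneg hx1
    rw [Real.norm_of_nonneg hl, Real.norm_of_nonneg (by positivity)] at hx
    linarith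
  have h5 := hcast.eventually h4
  filter_upwards [h2, h3, h5, eventually_ge_atTop 5] with N a2 a3 a5 a6
  have hN5 : (5 : ℝ) ≤ N := by exact_mod_cast a6
  have hN0 : (0 : ℝ) < N := by linarith
  refine ⟨by omega, ?_, ?_, ?_, ?_, ?_⟩
  · have hl : 1 ≤ Real.log (3 * N + 3) := by
      rw [Real.le_log_iff_exp_le (by linarith)]
      linarith [Real.exp_one_lt_d9]
    have : 1 ≤ Real.log (3 * N + 3) ^ κ := one_le_pow₀ hl
    nlinarith
  · refine a2.trans ?_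
    calc (3 * (N : ℝ) + 3) ^ (ε / 32) ≤ ((N : ℝ) ^ (2 : ℝ)) ^ (ε / 32) := by
          apply Real.rpow_le_rpow (by linarith) _ (by positivity)
          have : (N : ℝ) ^ (2 : ℝ) = (N : ℝ) ^ 2 := by
            rw [← Real.rpow_natCast]; norm_num
          rw [this]
          nlinarith
      _ = (N : ℝ) ^ (ε / 16) := by
          rw [← Real.rpow_mul hN0.le]
          congr 1
          ring
  · rw [div_le_iff₀ (by positivity)] at a3
    linarith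
  · refine a5.trans (le_of_eq ?_)
    rw [← Real.rpow_natCast, ← Real.rpow_mul hN0.le]
    congr 1
    push_cast
    ring
  · exact Real.one_le_rpow (by linarith) (by positivity)

theorem good_ae {ξ : ℕ → Ω → ℝ} (hi : iIndepFun ξ μ) (hm : ∀ n, Measurable (ξ n)) {C : ℝ} (hC0 : 0 ≤ C)
    (κ : ℕ) (hb : ∀ n ω, |ξ n ω| ≤ C * Real.log (n + 3) ^ κ) {ε δ : ℝ} (hε : 0 < ε) (hε1 : ε < 1)
    (hδ : 0 < δ) :
    ∀ᵐ ω ∂μ, ∀ᶠ N : ℕ in atTop,
      Good N ((N : ℝ) ^ (1 - ε)) δ ((2 * C + 1) * Real.log (3 * N + 3) ^ κ) ((N : ℝ) ^ (ε / 16))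
        (fun n => ξ n ω - ∫ ω', ξ n ω' ∂μ) (fun n => ∫ ω', ξ n ω' ∂μ)
        (fun (s L : ℕ) => ∫ ω', tr (L * ((2 * C + 1) * Real.log (3 * N + 3) ^ κ) ^ 2 *
          ((N : ℝ) ^ (ε / 16)) ^ 2) (win (fun n => ξ n ω' - ∫ ω'', ξ n ω'' ∂μ) s L) ∂μ) := by
  have hint : ∀ n, Integrable (ξ n) μ := fun n =>
    Integrable.of_bound (hm n).aestronglyMeasurable _ (Eventually.of_forall fun ω => hb n ω)
  have hi' : iIndepFun (fun n ω => ξ n ω - ∫ ω', ξ n ω' ∂μ) μ :=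
    hi.comp (fun n x => x - ∫ ω', ξ n ω' ∂μ) (fun n => measurable_id.sub_const _)
  have hm' : ∀ n, Measurable (fun ω => ξ n ω - ∫ ω', ξ n ω' ∂μ) := fun n => (hm n).sub_const _
  have h0' : ∀ n, ∫ ω, (ξ n ω - ∫ ω', ξ n ω' ∂μ) ∂μ = 0 := fun n => by
    rw [integral_sub (hint n) (integrable_const _)]; simp
  have hmean : ∀ n, |∫ ω', ξ n ω' ∂μ| ≤ C * Real.log (n + 3) ^ κ := fun n => by
    have h := norm_integral_le_of_norm_le_const (μ := μ) (f := ξ n) (Eventually.of_forall fun ω => hb n ω)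
    simpa using h
  have hbY : ∀ N : ℕ, 1 ≤ N → ∀ n < 3 * N, ∀ ω, |ξ n ω - ∫ ω', ξ n ω' ∂μ| ≤
      (2 * C + 1) * Real.log (3 * N + 3) ^ κ := by
    intro N hN n hn ω
    have hl0 : 0 ≤ Real.log (n + 3) := Real.log_nonneg (by
      have : (0 : ℝ) ≤ n := Nat.cast_nonneg n
      linarith)
    have hn' : (n : ℝ) < 3 * N := by exact_mod_cast hn
    have hl1 : Real.log (n + 3) ≤ Real.log (3 * N + 3) := Real.log_le_log (by positivity) (by linarith)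
    have hp : Real.log (n + 3) ^ κ ≤ Real.log (3 * N + 3) ^ κ := pow_le_pow_left₀ hl0 hl1 κ
    have hp0 : 0 ≤ Real.log (n + 3) ^ κ := pow_nonneg hl0 κ
    have h1 := abs_sub (ξ n ω) (∫ ω', ξ n ω' ∂μ)
    have h2 := hb n ω
    have h3 := hmean n
    have h4 : C * Real.log (n + 3) ^ κ ≤ C * Real.log (3 * N + 3) ^ κ := mul_le_mul_of_nonneg_left hp hC0
    nlinarith
  obtain ⟨N0, hN0⟩ := eventually_atTop.1 (num ε δ (2 * C + 1) κ hε hδ (by linarith))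
  let G : ℕ → Ω → Prop := fun N ω =>
    Good N ((N : ℝ) ^ (1 - ε)) δ ((2 * C + 1) * Real.log (3 * N + 3) ^ κ) ((N : ℝ) ^ (ε / 16))
        (fun n => ξ n ω - ∫ ω', ξ n ω' ∂μ) (fun n => ∫ ω', ξ n ω' ∂μ)
        (fun (s L : ℕ) => ∫ ω', tr (L * ((2 * C + 1) * Real.log (3 * N + 3) ^ κ) ^ 2 *
          ((N : ℝ) ^ (ε / 16)) ^ 2) (win (fun n => ξ n ω' - ∫ ω'', ξ n ω'' ∂μ) s L) ∂μ)
  have hmain : ∀ N : ℕ, N0 ≤ N → 8 ≤ N → μ {ω | ¬ G N ω} ≤ ENNReal.ofReal (1 / (N : ℝ) ^ 2) := by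
    intro N hN hN8
    obtain ⟨q1, q2, q3, q4, q5, q6⟩ := hN0 N hN
    obtain ⟨b, hbdef⟩ : ∃ b : ℝ, b = (2 * C + 1) * Real.log (3 * N + 3) ^ κ := ⟨_, rfl⟩
    obtain ⟨y, hydef⟩ : ∃ y : ℝ, y = (N : ℝ) ^ (ε / 16) := ⟨_, rfl⟩
    have hN0' : (0 : ℝ) < N := by exact_mod_cast q1
    have hN8' : (8 : ℝ) ≤ N := by exact_mod_cast hN8
    have hLy : ∀ L : ℕ, (L : ℝ) ≤ (N : ℝ) ^ (1 - ε) → (L : ℝ) * y ^ 16 ≤ N := by
      intro L hL
      have e1 : y ^ 16 = (N : ℝ) ^ ε := by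
        rw [hydef, ← Real.rpow_natCast, ← Real.rpow_mul hN0'.le]
        congr 1
        push_cast
        ring
      have e2 : (N : ℝ) ^ (1 - ε) * (N : ℝ) ^ ε = N := by
        rw [← Real.rpow_add hN0']
        simp
      rw [e1]
      calc (L : ℝ) * (N : ℝ) ^ ε ≤ (N : ℝ) ^ (1 - ε) * (N : ℝ) ^ ε :=
            mul_le_mul_of_nonneg_right hL (by positivity)
        _ = N := e2
    have hG : ∀ ω, G N ω ↔ Good N ((N : ℝ) ^ (1 - ε)) δ b y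
        (fun n => ξ n ω - ∫ ω', ξ n ω' ∂μ) (fun n => ∫ ω', ξ n ω' ∂μ)
        (fun (s L : ℕ) => ∫ ω', tr (L * b ^ 2 * y ^ 2) (win (fun n => ξ n ω' - ∫ ω'', ξ n ω'' ∂μ) s L) ∂μ) := by
      intro ω
      rw [hbdef, hydef]
    rw [← hbdef] at q2 q3
    rw [← hydef] at q3 q4 q5 q6
    have hb0 : 0 < b := by linarith
    have hy0 : 0 < y := by linarith
    have hpow : ∀ i j : ℕ, i ≤ j → y ^ i ≤ y ^ j := fun i j h => pow_le_pow_right₀ q6 h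
    have h := bad_le (μ := μ) hi' hm' hb0 hy0 q1 (by rw [hbdef]; exact hbY N q1) h0'
      (fun n => ∫ ω', ξ n ω' ∂μ) (Lm := (N : ℝ) ^ (1 - ε)) hδ (z := y ^ 2 / 2) le_rfl
      (by
        intro L K hL1 hL2 hK hKL
        have hL0 : (0 : ℝ) < L := by exact_mod_cast hL1
        have hK0 : (0 : ℝ) < K := by exact_mod_cast hK
        have hKL' : (K : ℝ) * L ≤ 3 * N := by exact_mod_cast hKL
        have hy16 := hLy L hL2
        rw [le_div_iff₀ (by positivity)]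
        have e1 : y ^ 2 / 2 * (2 * K * (L * b ^ 2 * y ^ 2) ^ 2) = (K * L) * (L * (b ^ 4 * y ^ 6)) := by ring
        rw [e1]
        have hb4 : b ^ 4 ≤ y ^ 4 := pow_le_pow_left₀ hb0.le q3 4
        have s1 : L * (b ^ 4 * y ^ 6) ≤ L * y ^ 10 := by
          have : b ^ 4 * y ^ 6 ≤ y ^ 4 * y ^ 6 := mul_le_mul_of_nonneg_right hb4 (by positivity)
          calc L * (b ^ 4 * y ^ 6) ≤ L * (y ^ 4 * y ^ 6) := mul_le_mul_of_nonneg_left this hL0.le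
            _ = L * y ^ 10 := by ring
        have s2 : 3 * (L * y ^ 10) ≤ δ ^ 2 * N := by
          have t1 : 3 ≤ δ ^ 2 * y ^ 6 := by
            have : y ≤ y ^ 6 := by simpa using hpow 1 6 (by norm_num)
            have h2 : δ ^ 2 * y ≤ δ ^ 2 * y ^ 6 := mul_le_mul_of_nonneg_left this (by positivity)
            linarith
          calc 3 * (L * y ^ 10) ≤ (δ ^ 2 * y ^ 6) * (L * y ^ 10) :=
                mul_le_mul_of_nonneg_right t1 (by positivity)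
            _ = δ ^ 2 * (L * y ^ 16) := by ring
            _ ≤ δ ^ 2 * N := mul_le_mul_of_nonneg_left hy16 (by positivity)
        calc (K * L : ℝ) * (L * (b ^ 4 * y ^ 6)) ≤ (3 * N) * (L * y ^ 10) :=
              mul_le_mul hKL' s1 (by positivity) (by positivity)
          _ = N * (3 * (L * y ^ 10)) := by ring
          _ ≤ N * (δ ^ 2 * N) := mul_le_mul_of_nonneg_left s2 hN0'.le
          _ = (δ * N) ^ 2 := by ring)
      (by
        intro L hL1 hL2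
        have hL0 : (0 : ℝ) < L := by exact_mod_cast hL1
        have hy16 := hLy L hL2
        rw [le_div_iff₀ (by positivity)]
        have e1 : y ^ 2 / 2 * (2 * b ^ 2 * L) = L * (b ^ 2 * y ^ 2) := by ring
        rw [e1]
        have hb2 : b ^ 2 ≤ y ^ 2 := pow_le_pow_left₀ hb0.le q3 2
        have t1 : 1 ≤ δ ^ 2 * y := by linarith
        have t2 : b ^ 2 * y ^ 2 ≤ y ^ 4 := by
          calc b ^ 2 * y ^ 2 ≤ y ^ 2 * y ^ 2 := mul_le_mul_of_nonneg_right hb2 (by positivity)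
            _ = y ^ 4 := by ring
        calc L * (b ^ 2 * y ^ 2) ≤ L * y ^ 4 := mul_le_mul_of_nonneg_left t2 hL0.le
          _ ≤ (δ ^ 2 * y) * (L * y ^ 4) := le_mul_of_one_le_left (by positivity) t1
          _ = δ ^ 2 * (L * y ^ 5) := by ring
          _ ≤ δ ^ 2 * (L * y ^ 16) := by
              refine mul_le_mul_of_nonneg_left ?_ (by positivity)
              exact mul_le_mul_of_nonneg_left (hpow 5 16 (by norm_num)) hL0.le
          _ ≤ δ ^ 2 * N := mul_le_mul_of_nonneg_left hy16 (by positivity))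
    have hset : {ω | ¬ G N ω} = {ω | ¬ Good N ((N : ℝ) ^ (1 - ε)) δ b y
        (fun n => ξ n ω - ∫ ω', ξ n ω' ∂μ) (fun n => ∫ ω', ξ n ω' ∂μ)
        (fun (s L : ℕ) => ∫ ω', tr (L * b ^ 2 * y ^ 2) (win (fun n => ξ n ω' - ∫ ω'', ξ n ω'' ∂μ) s L) ∂μ)} := by
      ext ω
      exact not_congr (hG ω)
    rw [hset, ← ofReal_measureReal]
    apply ENNReal.ofReal_le_ofReal
    refine h.trans ?_
    have hexp : Real.exp (-(y ^ 2 / 2)) ≤ 1 / (N : ℝ) ^ 8 := by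
      have : Real.exp (-(y ^ 2 / 2)) ≤ Real.exp (-(8 * Real.log N)) := Real.exp_le_exp.2 (by linarith)
      refine this.trans (le_of_eq ?_)
      rw [Real.exp_neg, one_div]
      congr 1
      rw [show (8 : ℝ) * Real.log N = ((8 : ℕ) : ℝ) * Real.log N by norm_num, Real.exp_nat_mul,
        Real.exp_log hN0']
    have h3N : ((3 * N + 1 : ℕ) : ℝ) ≤ 4 * N := by push_cast; linarith
    calc ((3 * N + 1 : ℕ) : ℝ) ^ 3 * (8 * Real.exp (-(y ^ 2 / 2)))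
        ≤ (4 * N) ^ 3 * (8 * (1 / (N : ℝ) ^ 8)) := by
          apply mul_le_mul (pow_le_pow_left₀ (by positivity) h3N 3) _ (by positivity) (by positivity)
          linarith
      _ = 512 / (N : ℝ) ^ 5 := by field_simp; norm_num
      _ ≤ 1 / (N : ℝ) ^ 2 := by
          rw [div_le_div_iff₀ (by positivity) (by positivity)]
          have : (8 : ℝ) ^ 3 ≤ (N : ℝ) ^ 3 := pow_le_pow_left₀ (by norm_num) hN8' 3
          calc 512 * (N : ℝ) ^ 2 ≤ (N : ℝ) ^ 3 * (N : ℝ) ^ 2 := by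
                refine mul_le_mul_of_nonneg_right ?_ (by positivity)
                linarith
            _ = 1 * (N : ℝ) ^ 5 := by ring
  have hbc : ∀ᵐ ω ∂μ, ∀ᶠ N : ℕ in atTop, ω ∉ (if N0 ≤ N ∧ 8 ≤ N then {ω | ¬ G N ω} else (∅ : Set Ω)) := by
    apply ae_eventually_notMem
    have hle : ∀ N : ℕ, μ (if N0 ≤ N ∧ 8 ≤ N then {ω | ¬ G N ω} else (∅ : Set Ω)) ≤
        ENNReal.ofReal (1 / (N : ℝ) ^ 2) := by
      intro N
      split_ifs with h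
      · exact hmain N h.1 h.2
      · simp
    have hsum : Summable (fun N : ℕ => 1 / (N : ℝ) ^ 2) := Real.summable_one_div_nat_pow.2 (by norm_num)
    have h2 := hsum.tsum_ofReal_ne_top
    exact ne_top_of_le_ne_top h2 (ENNReal.tsum_le_tsum hle)
  filter_upwards [hbc] with ω hω
  filter_upwards [hω, eventually_ge_atTop N0, eventually_ge_atTop 8] with N h1 h2 h3
  rw [if_pos ⟨h2, h3⟩] at h1
  exact not_not.1 h1

end Pool.Agent.D0H68.RV
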