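import Pool.Agent.D0H68.RV.Bc

set_option autoImplicit false

open Finset

namespace Pool.Agent.D0H68.RV

theorem sum_mul_range (g : ℕ → ℝ) (K L : ℕ) :
    ∑ s ∈ range (K * L), g s = ∑ r ∈ range L, ∑ k ∈ range K, g (r + k * L) := by
  induction K with
  | zero => simp
  | succ K ih =>
    rw [Nat.succ_mul, Finset.sum_range_add, ih, ← Finset.sum_add_distrib]
    refine Finset.sum_congr rfl fun r _ => ?_
    rw [Finset.sum_range_succ, add_comm (K * L) r]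

theorem sum_Ico_mul (g : ℕ → ℝ) (s0 K L : ℕ) :
    ∑ s ∈ Ico s0 (s0 + K * L), g s = ∑ r ∈ range L, ∑ k ∈ range K, g ((s0 + r) + k * L) := by
  rw [Finset.sum_Ico_eq_sum_range, show s0 + K * L - s0 = K * L by omega, sum_mul_range]
  refine Finset.sum_congr rfl fun r _ => Finset.sum_congr rfl fun k _ => ?_
  rw [add_assoc]

/-- the sum of the squares of all windows -/
theorem D1 {N : ℕ} {Lm δ b y : ℝ} {Y m v : ℕ → ℝ} {e : ℕ → ℕ → ℝ} (G : Good N Lm δ b y Y m e)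
    (hδ : 0 < δ) (hb : 0 ≤ b) {τ : ℝ} (L : ℕ) (hL : 1 ≤ L) (hLm : (L : ℝ) ≤ Lm)
    (hv0 : ∀ n < 3 * N, 0 ≤ v n) (hv : ∀ n < 3 * N, v n ≤ b ^ 2)
    (hτ : ∀ s : ℕ, s + L ≤ 3 * N → |win v s L - e s L| ≤ τ) (hτ0 : 0 ≤ τ)
    (s0 J : ℕ) (hJ : J ≤ 2 * N) (hs : s0 + J + L ≤ 3 * N) :
    |∑ s ∈ Ico s0 (s0 + J), win Y s L ^ 2 - ∑ s ∈ Ico s0 (s0 + J), win v s L| ≤
      δ * N * L + 2 * N * τ + L * (L * b ^ 2 * (y ^ 2 + 1)) := by
  obtain ⟨K, hK⟩ : ∃ K, K = J / L := ⟨_, rfl⟩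
  have hKJ : K * L ≤ J := by rw [hK]; exact Nat.div_mul_le_self J L
  have hJK : J < K * L + L := by
    rw [hK]
    have := Nat.lt_div_mul_add (a := J) (b := L) (by omega)
    omega
  have hmid : s0 + K * L ≤ s0 + J := by omega
  have hsplit : ∀ g : ℕ → ℝ, ∑ s ∈ Ico s0 (s0 + J), g s =
      ∑ s ∈ Ico s0 (s0 + K * L), g s + ∑ s ∈ Ico (s0 + K * L) (s0 + J), g s := fun g =>
    (Finset.sum_Ico_consecutive g (by omega) hmid).symm
  have hvw0 : ∀ s : ℕ, s + L ≤ 3 * N → 0 ≤ win v s L := fun s hs => Finset.sum_nonneg fun n hn =>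
    hv0 n (by have := (mem_Ico.1 hn).2; omega)
  have hvw : ∀ s : ℕ, s + L ≤ 3 * N → win v s L ≤ L * b ^ 2 := fun s hs => by
    refine (Finset.sum_le_card_nsmul _ _ (b ^ 2) fun n hn => hv n (by have := (mem_Ico.1 hn).2; omega)).trans ?_
    rw [Nat.card_Ico, show s + L - s = L by omega, nsmul_eq_mul]
  -- main part
  have h1 : |∑ s ∈ Ico s0 (s0 + K * L), (win Y s L ^ 2 - e s L)| ≤ L * (δ * N) := by
    rw [sum_Ico_mul]
    refine (abs_sum_le_sum_abs _ _).trans ?_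
    refine (Finset.sum_le_card_nsmul _ _ (δ * N) fun r hr => ?_).trans (by simp)
    have hr' : r < L := mem_range.1 hr
    have h := G.g2 L (s0 + r) K hL hLm (by omega)
    refine le_trans (le_of_eq ?_) h
    congr 1
    refine Finset.sum_congr rfl fun k hk => ?_
    have hk' : k + 1 ≤ K := mem_range.1 hk
    have hkL : (k + 1) * L ≤ K * L := Nat.mul_le_mul_right L hk'
    have hkL' : (k + 1) * L = k * L + L := by ring
    have hg := G.g1 L (s0 + r + k * L) hL hLm (by omega)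
    unfold tr
    rw [min_eq_left hg]
  have h2 : |∑ s ∈ Ico s0 (s0 + K * L), (win v s L - e s L)| ≤ 2 * N * τ := by
    refine (abs_sum_le_sum_abs _ _).trans ?_
    refine (Finset.sum_le_card_nsmul _ _ τ fun s hs' => hτ s (by have := (mem_Ico.1 hs').2; omega)).trans ?_
    rw [Nat.card_Ico, nsmul_eq_mul]
    refine mul_le_mul_of_nonneg_right ?_ hτ0
    have : s0 + K * L - s0 ≤ 2 * N := by omega
    exact_mod_cast this
  have h3 : |∑ s ∈ Ico (s0 + K * L) (s0 + J), (win Y s L ^ 2 - win v s L)| ≤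
      L * (L * b ^ 2 * (y ^ 2 + 1)) := by
    refine (abs_sum_le_sum_abs _ _).trans ?_
    refine (Finset.sum_le_card_nsmul _ _ (L * b ^ 2 * (y ^ 2 + 1)) fun s hs' => ?_).trans ?_
    · have hs2 : s + L ≤ 3 * N := by have := (mem_Ico.1 hs').2; omega
      have a1 := G.g1 L s hL hLm hs2
      have a2 := hvw0 s hs2
      have a3 := hvw s hs2
      have a4 := sq_nonneg (win Y s L)
      rw [abs_le]
      have a5 : 0 ≤ L * b ^ 2 * y ^ 2 := by positivity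
      have a6 : 0 ≤ (L : ℝ) * b ^ 2 := by positivity
      constructor <;> nlinarith
    · rw [Nat.card_Ico, nsmul_eq_mul]
      refine mul_le_mul_of_nonneg_right ?_ (by positivity)
      have : s0 + J - (s0 + K * L) ≤ L := by omega
      exact_mod_cast this
  rw [hsplit (fun s => win Y s L ^ 2), hsplit (fun s => win v s L)]
  have e1 : ∑ s ∈ Ico s0 (s0 + K * L), win Y s L ^ 2 + ∑ s ∈ Ico (s0 + K * L) (s0 + J), win Y s L ^ 2 -
      (∑ s ∈ Ico s0 (s0 + K * L), win v s L + ∑ s ∈ Ico (s0 + K * L) (s0 + J), win v s L) =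
      ∑ s ∈ Ico s0 (s0 + K * L), (win Y s L ^ 2 - e s L) - ∑ s ∈ Ico s0 (s0 + K * L), (win v s L - e s L) +
      ∑ s ∈ Ico (s0 + K * L) (s0 + J), (win Y s L ^ 2 - win v s L) := by
    simp only [Finset.sum_sub_distrib]
    ring
  rw [e1]
  have t1 := abs_add_le (∑ s ∈ Ico s0 (s0 + K * L), (win Y s L ^ 2 - e s L) -
    ∑ s ∈ Ico s0 (s0 + K * L), (win v s L - e s L))
    (∑ s ∈ Ico (s0 + K * L) (s0 + J), (win Y s L ^ 2 - win v s L))
  have t2 := abs_sub (∑ s ∈ Ico s0 (s0 + K * L), (win Y s L ^ 2 - e s L))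
    (∑ s ∈ Ico s0 (s0 + K * L), (win v s L - e s L))
  linarith

theorem sum_Ico_sub {v : ℕ → ℝ} {M : ℕ} {B : ℝ} (hB : 0 ≤ B) (hv0 : ∀ n < M, 0 ≤ v n) (hv : ∀ n < M, v n ≤ B)
    {p q : ℕ} (hp : p ≤ M) (hq : q ≤ M) :
    |∑ n ∈ range p, v n - ∑ n ∈ range q, v n| ≤ B * |(p : ℝ) - q| := by
  wlog h : q ≤ p generalizing p q with H
  · rw [abs_sub_comm, abs_sub_comm (p : ℝ)]
    exact H hq hp (by omega)
  rw [← Finset.sum_Ico_eq_sub _ h]
  have h1 : 0 ≤ ∑ n ∈ Ico q p, v n := Finset.sum_nonneg fun n hn => hv0 n (by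
    have := (mem_Ico.1 hn).2; omega)
  rw [abs_of_nonneg h1]
  refine (Finset.sum_le_card_nsmul _ _ B fun n hn => hv n (by have := (mem_Ico.1 hn).2; omega)).trans ?_
  rw [Nat.card_Ico, nsmul_eq_mul, Nat.cast_sub h, mul_comm]
  exact mul_le_mul_of_nonneg_left (le_abs_self _) hB

/-- the sum of the variances over all windows -/
theorem D2 {N : ℕ} {b : ℝ} {v : ℕ → ℝ} (hv0 : ∀ n < 3 * N, 0 ≤ v n) (hv : ∀ n < 3 * N, v n ≤ b ^ 2)
    (L s0 s1 a0 a1 : ℕ) (h01 : s0 ≤ s1) (ha : a0 ≤ a1) (hs : s1 + L ≤ 3 * N) (ha1 : a1 ≤ 3 * N) {E : ℝ}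
    (hE0 : |(s0 : ℝ) - a0| ≤ E) (hE1 : |(s1 : ℝ) - a1| ≤ E) :
    |∑ s ∈ Ico s0 s1, win v s L - L * ∑ n ∈ Ico a0 a1, v n| ≤ L * (b ^ 2 * (2 * E + 2 * L)) := by
  have e1 : ∑ s ∈ Ico s0 s1, win v s L = ∑ r ∈ range L, ∑ n ∈ Ico (s0 + r) (s1 + r), v n := by
    have : ∀ s, win v s L = ∑ r ∈ range L, v (s + r) := fun s => by
      unfold win
      rw [Finset.sum_Ico_eq_sum_range, show s + L - s = L by omega]
    simp_rw [this]
    rw [Finset.sum_comm]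
    refine Finset.sum_congr rfl fun r _ => ?_
    rw [← Finset.sum_Ico_add' (fun n => v n) s0 s1 r]
  rw [e1]
  have e2 : (L : ℝ) * ∑ n ∈ Ico a0 a1, v n = ∑ r ∈ range L, ∑ n ∈ Ico a0 a1, v n := by simp
  rw [e2, ← Finset.sum_sub_distrib]
  refine (abs_sum_le_sum_abs _ _).trans ?_
  refine (Finset.sum_le_card_nsmul _ _ (b ^ 2 * (2 * E + 2 * L)) fun r hr => ?_).trans (by simp)
  have hr' : r < L := mem_range.1 hr
  have hrL : (r : ℝ) ≤ L := by exact_mod_cast hr'.le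
  rw [Finset.sum_Ico_eq_sub _ (show s0 + r ≤ s1 + r by omega), Finset.sum_Ico_eq_sub _ ha]
  have h1 := sum_Ico_sub (sq_nonneg b) hv0 hv (p := s1 + r) (q := a1) (by omega) ha1
  have h0 := sum_Ico_sub (sq_nonneg b) hv0 hv (p := s0 + r) (q := a0) (by omega) (by omega)
  have k1 : |((s1 + r : ℕ) : ℝ) - a1| ≤ E + L := by
    push_cast
    have := abs_add_le ((s1 : ℝ) - a1) r
    rw [abs_of_nonneg (show (0 : ℝ) ≤ r by positivity)] at this
    rw [show (s1 : ℝ) + r - a1 = (s1 : ℝ) - a1 + r by ring]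
    linarith
  have k0 : |((s0 + r : ℕ) : ℝ) - a0| ≤ E + L := by
    push_cast
    have := abs_add_le ((s0 : ℝ) - a0) r
    rw [abs_of_nonneg (show (0 : ℝ) ≤ r by positivity)] at this
    rw [show (s0 : ℝ) + r - a0 = (s0 : ℝ) - a0 + r by ring]
    linarith
  have m1 := mul_le_mul_of_nonneg_left k1 (sq_nonneg b)
  have m0 := mul_le_mul_of_nonneg_left k0 (sq_nonneg b)
  have t := abs_sub (∑ n ∈ range (s1 + r), v n - ∑ n ∈ range a1, v n)
    (∑ n ∈ range (s0 + r), v n - ∑ n ∈ range a0, v n)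
  have e3 : ∑ n ∈ range (s1 + r), v n - ∑ n ∈ range (s0 + r), v n -
      (∑ n ∈ range a1, v n - ∑ n ∈ range a0, v n) = ∑ n ∈ range (s1 + r), v n - ∑ n ∈ range a1, v n -
      (∑ n ∈ range (s0 + r), v n - ∑ n ∈ range a0, v n) := by ring
  rw [e3]
  linarith

/-- one fibre -/
theorem D3 {N : ℕ} {Lm δ b y : ℝ} {Y m v : ℕ → ℝ} {e : ℕ → ℕ → ℝ} (G : Good N Lm δ b y Y m e)
    (hδ : 0 < δ) (hδ1 : δ ≤ 1) (hN : 1 ≤ N) (hb : 1 ≤ b) (hby : b ≤ y) (hy6 : 6 ≤ δ ^ 2 * y) (L : ℕ) (hL : 1 ≤ L)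
    (hLm : (L : ℝ) ≤ Lm) (hLy : (L : ℝ) * y ^ 16 ≤ N) {H : ℝ} (hH : 1 ≤ H) (hHL : |(L : ℝ) - H| ≤ 1)
    (hHy : y ^ 4 ≤ H)
    (hv0 : ∀ n < 3 * N, 0 ≤ v n) (hv : ∀ n < 3 * N, v n ≤ b ^ 2)
    {τ : ℝ} (hτ : ∀ s : ℕ, s + L ≤ 3 * N → |win v s L - e s L| ≤ τ) (hτ0 : 0 ≤ τ) (hτδ : τ ≤ δ)
    (s0 J : ℕ) (hJ : J ≤ 2 * N) (hs : s0 + J + L ≤ 3 * N) (a0 a1 : ℕ) (ha : a0 ≤ a1) (ha1 : a1 ≤ 3 * N)
    (haN : (a1 : ℝ) - a0 ≤ 2 * N)
    (hE0 : |(s0 : ℝ) - a0| ≤ H + 4) (hE1 : |((s0 + J : ℕ) : ℝ) - a1| ≤ H + 4) :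
    |∑ s ∈ Ico s0 (s0 + J), (win (fun n => m n + Y n) s L - H) ^ 2 -
      ∑ s ∈ Ico s0 (s0 + J), (win m s L - H) ^ 2 - H * ∑ n ∈ Ico a0 a1, v n| ≤
      60 * δ * (N * H + ∑ s ∈ Ico s0 (s0 + J), (win m s L - H) ^ 2) := by
  have hN0 : (0 : ℝ) < N := by exact_mod_cast hN
  have hL1 : (1 : ℝ) ≤ L := by exact_mod_cast hL
  have hy0 : 0 < y := by linarith
  have hy1 : 1 ≤ y := by linarith
  have hy : 6 ≤ y := by
    have : δ ^ 2 ≤ 1 := pow_le_one₀ hδ.le hδ1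
    nlinarith
  have hδy : 1 ≤ δ * y := by
    have : δ ^ 2 * y ≤ δ * y := by
      refine mul_le_mul_of_nonneg_right ?_ hy0.le
      nlinarith
    linarith
  obtain ⟨Q, hQ⟩ : ∃ Q, Q = ∑ s ∈ Ico s0 (s0 + J), (win m s L - H) ^ 2 := ⟨_, rfl⟩
  have hQ0 : 0 ≤ Q := by rw [hQ]; exact Finset.sum_nonneg fun _ _ => sq_nonneg _
  have hwin : ∀ s, win (fun n => m n + Y n) s L = win m s L + win Y s L := fun s => by
    unfold win; rw [Finset.sum_add_distrib]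
  have e1 : ∑ s ∈ Ico s0 (s0 + J), (win (fun n => m n + Y n) s L - H) ^ 2 = Q +
      ∑ s ∈ Ico s0 (s0 + J), win Y s L ^ 2 + 2 * ∑ s ∈ Ico s0 (s0 + J), (win m s L - L) * win Y s L +
      2 * (L - H) * ∑ s ∈ Ico s0 (s0 + J), win Y s L := by
    rw [hQ, Finset.mul_sum, Finset.mul_sum, ← Finset.sum_add_distrib, ← Finset.sum_add_distrib,
      ← Finset.sum_add_distrib]
    refine Finset.sum_congr rfl fun s _ => ?_
    rw [hwin s]
    ring
  have h1 := D1 G hδ (by linarith : (0 : ℝ) ≤ b) L hL hLm hv0 hv hτ hτ0 s0 J hJ hs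
  have h2 := D2 hv0 hv L s0 (s0 + J) a0 a1 (by omega) ha (by omega) ha1 hE0 hE1
  have h3 := G.g3 L s0 (s0 + J) hL hLm (by omega)
  have h4 := G.g4 L s0 (s0 + J) hL hLm (by omega)
  rw [show s0 + J - s0 = J by omega] at h4
  have hJ' : (J : ℝ) ≤ 2 * N := by exact_mod_cast hJ
  have hLH : (L : ℝ) ≤ 2 * H := by linarith [(abs_le.1 hHL).2]
  have hHL' : H ≤ 2 * L := by linarith [(abs_le.1 hHL).1]
  -- ∑ (m - L)^2
  have h5 : ∑ s ∈ Ico s0 (s0 + J), (win m s L - L) ^ 2 ≤ 2 * Q + 4 * N := by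
    have : ∀ s ∈ Ico s0 (s0 + J), (win m s L - L) ^ 2 ≤ 2 * (win m s L - H) ^ 2 + 2 := by
      intro s _
      have e : win m s L - L = (win m s L - H) - (L - H) := by ring
      have h6 : ((L : ℝ) - H) ^ 2 ≤ 1 := by
        rw [← sq_abs]; exact pow_le_one₀ (abs_nonneg _) hHL
      rw [e]
      nlinarith [sq_nonneg ((win m s L - H) + (L - H))]
    refine (Finset.sum_le_sum this).trans ?_
    rw [Finset.sum_add_distrib, ← Finset.mul_sum, ← hQ]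
    simp
    linarith
  have h6 : |2 * ∑ s ∈ Ico s0 (s0 + J), (win m s L - L) * win Y s L| ≤ 2 * (δ * (N * L + (2 * Q + 4 * N))) := by
    rw [abs_mul, abs_two]
    have : δ * (N * L + ∑ s ∈ Ico s0 (s0 + J), (win m s L - L) ^ 2) ≤ δ * (N * L + (2 * Q + 4 * N)) :=
      mul_le_mul_of_nonneg_left (by linarith) hδ.le
    linarith
  have h7 : |2 * (L - H) * ∑ s ∈ Ico s0 (s0 + J), win Y s L| ≤ 2 * (δ * (N * L + 2 * N)) := by
    rw [abs_mul, abs_mul, abs_two]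
    have h8 : δ * (N * L + J) ≤ δ * (N * L + 2 * N) := mul_le_mul_of_nonneg_left (by linarith) hδ.le
    have h9 : 2 * |(L : ℝ) - H| ≤ 2 := by linarith
    calc 2 * |(L : ℝ) - H| * |∑ s ∈ Ico s0 (s0 + J), win Y s L| ≤ 2 * (δ * (N * L + J)) :=
          mul_le_mul h9 h4 (abs_nonneg _) (by norm_num)
      _ ≤ _ := by linarith
  -- V
  obtain ⟨V, hV⟩ : ∃ V, V = ∑ n ∈ Ico a0 a1, v n := ⟨_, rfl⟩
  have hV0 : 0 ≤ V := by
    rw [hV]; exact Finset.sum_nonneg fun n hn => hv0 n (by have := (mem_Ico.1 hn).2; omega)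
  have hV1 : V ≤ 2 * N * b ^ 2 := by
    rw [hV]
    refine (Finset.sum_le_card_nsmul _ _ (b ^ 2) fun n hn => hv n (by have := (mem_Ico.1 hn).2; omega)).trans ?_
    rw [Nat.card_Ico, nsmul_eq_mul, Nat.cast_sub ha]
    exact mul_le_mul_of_nonneg_right haN (by positivity)
  have h10 : |L * V - H * V| ≤ 2 * N * b ^ 2 := by
    rw [← sub_mul, abs_mul, abs_of_nonneg hV0]
    calc |(L : ℝ) - H| * V ≤ 1 * V := mul_le_mul_of_nonneg_right hHL hV0
      _ ≤ _ := by linarith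
  -- powers of y
  have hb2 : b ^ 2 ≤ y ^ 2 := pow_le_pow_left₀ (by linarith) hby 2
  have hyp : ∀ i j : ℕ, i ≤ j → y ^ i ≤ y ^ j := fun i j h => pow_le_pow_right₀ hy1 h
  have k1 : 2 * N * b ^ 2 ≤ δ * (N * H) := by
    have : 2 * y ^ 2 ≤ δ * H := by
      calc 2 * y ^ 2 ≤ (δ * y) * (2 * y ^ 2) := le_mul_of_one_le_left (by positivity) hδy
        _ = δ * (2 * y ^ 3) := by ring
        _ ≤ δ * y ^ 4 := by
            refine mul_le_mul_of_nonneg_left ?_ hδ.le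
            have : y ^ 4 = y * y ^ 3 := by ring
            rw [this]
            exact mul_le_mul_of_nonneg_right (by linarith) (by positivity)
        _ ≤ δ * H := mul_le_mul_of_nonneg_left hHy hδ.le
    calc 2 * N * b ^ 2 ≤ 2 * N * y ^ 2 := mul_le_mul_of_nonneg_left hb2 (by positivity)
      _ = N * (2 * y ^ 2) := by ring
      _ ≤ N * (δ * H) := mul_le_mul_of_nonneg_left this hN0.le
      _ = _ := by ring
  have k2 : (L : ℝ) * (L * b ^ 2 * (y ^ 2 + 1)) ≤ δ * (N * L) := by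
    have t1 : (L : ℝ) * b ^ 2 * (y ^ 2 + 1) ≤ δ * N := by
      have t2 : b ^ 2 * (y ^ 2 + 1) ≤ 2 * y ^ 4 := by
        have : y ^ 2 + 1 ≤ 2 * y ^ 2 := by nlinarith
        calc b ^ 2 * (y ^ 2 + 1) ≤ y ^ 2 * (2 * y ^ 2) := mul_le_mul hb2 this (by positivity) (by positivity)
          _ = 2 * y ^ 4 := by ring
      calc (L : ℝ) * b ^ 2 * (y ^ 2 + 1) = L * (b ^ 2 * (y ^ 2 + 1)) := by ring
        _ ≤ L * (2 * y ^ 4) := mul_le_mul_of_nonneg_left t2 (by positivity)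
        _ ≤ (δ * y) * (L * (2 * y ^ 4)) := le_mul_of_one_le_left (by positivity) hδy
        _ = δ * (L * (2 * y ^ 5)) := by ring
        _ ≤ δ * (L * y ^ 16) := by
            refine mul_le_mul_of_nonneg_left (mul_le_mul_of_nonneg_left ?_ (by positivity)) hδ.le
            calc 2 * y ^ 5 ≤ y * y ^ 5 := mul_le_mul_of_nonneg_right (by linarith) (by positivity)
              _ = y ^ 6 := by ring
              _ ≤ y ^ 16 := hyp 6 16 (by norm_num)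
        _ ≤ δ * N := mul_le_mul_of_nonneg_left hLy hδ.le
    calc (L : ℝ) * (L * b ^ 2 * (y ^ 2 + 1)) ≤ L * (δ * N) := mul_le_mul_of_nonneg_left t1 (by positivity)
      _ = _ := by ring
  have k3 : (L : ℝ) * (b ^ 2 * (2 * (H + 4) + 2 * L)) ≤ 14 * (δ * (N * L)) := by
    have t0 : 2 * (H + 4) + 2 * L ≤ 14 * L := by linarith
    have t1 : b ^ 2 * (2 * (H + 4) + 2 * L) ≤ y ^ 2 * (14 * L) :=
      mul_le_mul hb2 t0 (by positivity) (by positivity)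
    have t2 : y ^ 2 * (14 * L) ≤ 14 * (δ * N) := by
      calc y ^ 2 * (14 * L) ≤ (δ * y) * (y ^ 2 * (14 * L)) := le_mul_of_one_le_left (by positivity) hδy
        _ = 14 * (δ * (L * y ^ 3)) := by ring
        _ ≤ 14 * (δ * (L * y ^ 16)) := by
            refine mul_le_mul_of_nonneg_left (mul_le_mul_of_nonneg_left
              (mul_le_mul_of_nonneg_left (hyp 3 16 (by norm_num)) (by positivity)) hδ.le) (by norm_num)
        _ ≤ 14 * (δ * N) := by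
            refine mul_le_mul_of_nonneg_left (mul_le_mul_of_nonneg_left hLy hδ.le) (by norm_num)
    calc (L : ℝ) * (b ^ 2 * (2 * (H + 4) + 2 * L)) ≤ L * (14 * (δ * N)) :=
          mul_le_mul_of_nonneg_left (t1.trans t2) (by positivity)
      _ = _ := by ring
  have k4 : 2 * N * τ ≤ 2 * (δ * (N * H)) := by
    have : N * τ ≤ N * δ := mul_le_mul_of_nonneg_left hτδ hN0.le
    have h' : N * δ ≤ δ * (N * H) := by
      calc N * δ = δ * (N * 1) := by ring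
        _ ≤ δ * (N * H) := mul_le_mul_of_nonneg_left (mul_le_mul_of_nonneg_left hH hN0.le) hδ.le
    linarith
  have k5 : δ * (N * L) ≤ 2 * (δ * (N * H)) := by
    calc δ * (N * L) ≤ δ * (N * (2 * H)) :=
          mul_le_mul_of_nonneg_left (mul_le_mul_of_nonneg_left hLH hN0.le) hδ.le
      _ = _ := by ring
  have k6 : δ * N ≤ δ * (N * H) := by
    calc δ * N = δ * (N * 1) := by ring
      _ ≤ δ * (N * H) := mul_le_mul_of_nonneg_left (mul_le_mul_of_nonneg_left hH hN0.le) hδ.le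
  rw [e1, ← hQ, ← hV]
  rw [← hV] at h2
  have a1' := abs_le.1 h1
  have a2' := abs_le.1 h2
  have a3' := abs_le.1 h6
  have a4' := abs_le.1 h7
  have a5' := abs_le.1 h10
  have hδQ : 0 ≤ δ * Q := by positivity
  have hδNH : 0 ≤ δ * (N * H) := by positivity
  have e6 : 2 * (δ * (N * L + (2 * Q + 4 * N))) = 2 * (δ * (N * L)) + 4 * (δ * Q) + 8 * (δ * N) := by ring
  have e7 : 2 * (δ * (N * L + 2 * N)) = 2 * (δ * (N * L)) + 4 * (δ * N) := by ring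
  have e8 : 60 * δ * (N * H + Q) = 60 * (δ * (N * H)) + 60 * (δ * Q) := by ring
  rw [e6] at a3'
  rw [e7] at a4'
  rw [e8, abs_le]
  have e9 : δ * N * L = δ * (N * L) := by ring
  rw [e9] at a1'
  constructor <;> linarith [a1'.1, a1'.2, a2'.1, a2'.2, a3'.1, a3'.2, a4'.1, a4'.2, a5'.1, a5'.2]

end Pool.Agent.D0H68.RV
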