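import Pool.Agent.D0H68.RV.Hoef

set_option autoImplicit false

open MeasureTheory ProbabilityTheory Finset Filter
open scoped NNReal ENNReal

namespace Pool.Agent.D0H68.RV

variable {Ω : Type*} [mΩ : MeasurableSpace Ω] {μ : Measure Ω} [IsProbabilityMeasure μ]

/-- `min (M ^ 2) T` -/
noncomputable def tr (T x : ℝ) : ℝ := min (x ^ 2) T

theorem tr_nonneg {T x : ℝ} (hT : 0 ≤ T) : 0 ≤ tr T x := le_min (sq_nonneg x) hT

theorem tr_le {T x : ℝ} : tr T x ≤ T := min_le_right _ _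

theorem meas_tr (T : ℝ) : Measurable (tr T) := (measurable_id.pow_const 2).min measurable_const

/-- tail of a window sum -/
theorem E1 {Y : ℕ → Ω → ℝ} (hi : iIndepFun Y μ) (hm : ∀ n, Measurable (Y n)) {b y : ℝ} (hb0 : 0 < b)
    (hy : 0 ≤ y) {N : ℕ} (hbd : ∀ n < 3 * N, ∀ ω, |Y n ω| ≤ b) (h0 : ∀ n, ∫ ω, Y n ω ∂μ = 0)
    (s L : ℕ) (hL : 1 ≤ L) (hs : s + L ≤ 3 * N) :
    μ.real {ω | L * b ^ 2 * y ^ 2 < win (fun n => Y n ω) s L ^ 2} ≤ 2 * Real.exp (-(y ^ 2 / 2)) := by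
  have hL0 : (0 : ℝ) < L := by exact_mod_cast hL
  have h := tail_lin (μ := μ) hi hm hb0 (A := Ico s (s + L))
    (fun n hn ω => hbd n (lt_of_lt_of_le (mem_Ico.1 hn).2 hs) ω) (fun n _ => h0 n) (fun _ => 1)
    (W := (L : ℝ)) hL0.le (by simp) (t := Real.sqrt L * b * y) (by positivity)
  have e : (Real.sqrt L * b * y) ^ 2 = L * b ^ 2 * y ^ 2 := by
    rw [mul_pow, mul_pow, Real.sq_sqrt hL0.le]
  refine (measureReal_mono ?_).trans (h.trans (le_of_eq ?_))
  · intro ω hω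
    have hω' : L * b ^ 2 * y ^ 2 < win (fun n => Y n ω) s L ^ 2 := hω
    show Real.sqrt L * b * y ≤ |∑ n ∈ Ico s (s + L), 1 * Y n ω|
    rw [← abs_of_nonneg (show 0 ≤ Real.sqrt L * b * y by positivity), ← sq_le_sq, e]
    simpa [win] using hω'.le
  · congr 2
    rw [e]
    field_simp

/-- concentration of the truncated squares over disjoint windows -/
theorem E2 {Y : ℕ → Ω → ℝ} (hi : iIndepFun Y μ) (hm : ∀ n, Measurable (Y n)) {T : ℝ} (hT : 0 < T)
    (s L K : ℕ) (hK : 1 ≤ K) {t : ℝ} (ht : 0 ≤ t) :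
    μ.real {ω | t < |∑ k ∈ range K, (tr T (win (fun n => Y n ω) (s + k * L) L) -
      ∫ ω', tr T (win (fun n => Y n ω') (s + k * L) L) ∂μ)|} ≤ 2 * Real.exp (-(t ^ 2 / (2 * K * T ^ 2))) := by
  have hmw : ∀ k, Measurable (fun ω => tr T (win (fun n => Y n ω) (s + k * L) L)) := fun k =>
    (meas_tr T).comp (Finset.measurable_fun_sum _ (fun n _ => hm n))
  have hint : ∀ k, Integrable (fun ω => tr T (win (fun n => Y n ω) (s + k * L) L)) μ := fun k =>
    Integrable.of_bound (hmw k).aestronglyMeasurable T (Eventually.of_forall fun ω => by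
      rw [Real.norm_of_nonneg (tr_nonneg hT.le)]; exact tr_le)
  have he0 : ∀ k, 0 ≤ ∫ ω', tr T (win (fun n => Y n ω') (s + k * L) L) ∂μ := fun k =>
    integral_nonneg fun ω => tr_nonneg hT.le
  have he1 : ∀ k, ∫ ω', tr T (win (fun n => Y n ω') (s + k * L) L) ∂μ ≤ T := fun k => by
    calc ∫ ω', tr T (win (fun n => Y n ω') (s + k * L) L) ∂μ ≤ ∫ _, T ∂μ :=
          integral_mono (hint k) (integrable_const _) fun ω => tr_le
      _ = T := by simp
  have h := tail_blocks (μ := μ) hi hm s L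
    (φ := fun k x => tr T x - ∫ ω', tr T (win (fun n => Y n ω') (s + k * L) L) ∂μ)
    (fun k => (meas_tr T).sub measurable_const) (B := T) hT.le (fun k x => by
      rw [abs_le]
      have h1 := tr_nonneg (x := x) hT.le
      have h2 := tr_le (T := T) (x := x)
      have h3 := he0 k
      have h4 := he1 k
      constructor
      · show -T ≤ _; linarith
      · show _ ≤ T; linarith) K (fun k _ => by
      rw [integral_sub (hint k) (integrable_const _)]
      simp) ht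
  exact (measureReal_mono fun ω hω => (show t < _ from hω).le).trans h

theorem swap_sum (Y D : ℕ → ℝ) (s0 s1 L : ℕ) :
    ∑ s ∈ Ico s0 s1, D s * win Y s L =
      ∑ n ∈ Ico s0 (s1 + L), (∑ s ∈ (Ico s0 s1).filter (fun s => s ≤ n ∧ n < s + L), D s) * Y n := by
  unfold win
  simp_rw [Finset.mul_sum, Finset.sum_mul]
  rw [Finset.sum_comm' (t' := Ico s0 (s1 + L))
    (s' := fun n => (Ico s0 s1).filter (fun s => s ≤ n ∧ n < s + L))]
  intro s n
  simp only [mem_Ico, mem_filter]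
  omega

theorem coef_le (D : ℕ → ℝ) (s0 s1 L : ℕ) :
    ∑ n ∈ Ico s0 (s1 + L), (∑ s ∈ (Ico s0 s1).filter (fun s => s ≤ n ∧ n < s + L), D s) ^ 2 ≤
      (L : ℝ) ^ 2 * ∑ s ∈ Ico s0 s1, D s ^ 2 := by
  have h1 : ∀ n ∈ Ico s0 (s1 + L), (∑ s ∈ (Ico s0 s1).filter (fun s => s ≤ n ∧ n < s + L), D s) ^ 2 ≤
      L * ∑ s ∈ (Ico s0 s1).filter (fun s => s ≤ n ∧ n < s + L), D s ^ 2 := by
    intro n _
    refine sq_sum_le_card_mul_sum_sq.trans ?_
    refine mul_le_mul_of_nonneg_right ?_ (Finset.sum_nonneg fun _ _ => sq_nonneg _)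
    have hc : ((Ico s0 s1).filter (fun s => s ≤ n ∧ n < s + L)).card ≤ (Ico (n + 1 - L) (n + 1)).card := by
      apply card_le_card
      intro s hs
      simp only [mem_filter, mem_Ico] at hs ⊢
      omega
    rw [Nat.card_Ico] at hc
    exact_mod_cast hc.trans (by omega)
  refine (Finset.sum_le_sum h1).trans ?_
  rw [← Finset.mul_sum, sq, mul_assoc]
  refine mul_le_mul_of_nonneg_left ?_ (Nat.cast_nonneg L)
  rw [Finset.sum_comm' (t' := Ico s0 s1) (s' := fun s => Ico s (s + L))]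
  · rw [Finset.mul_sum]
    apply le_of_eq
    refine Finset.sum_congr rfl fun s _ => ?_
    simp
  · intro n s
    simp only [mem_Ico, mem_filter]
    omega

/-- concentration of the linear statistics -/
theorem E3 {Y : ℕ → Ω → ℝ} (hi : iIndepFun Y μ) (hm : ∀ n, Measurable (Y n)) {b : ℝ} (hb0 : 0 < b)
    {N : ℕ} (hbd : ∀ n < 3 * N, ∀ ω, |Y n ω| ≤ b) (h0 : ∀ n, ∫ ω, Y n ω ∂μ = 0)
    (D : ℕ → ℝ) (s0 s1 L : ℕ) (hL : 1 ≤ L) (hN : 1 ≤ N) (hs : s1 + L ≤ 3 * N) {δ : ℝ} (hδ : 0 ≤ δ) :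
    μ.real {ω | δ * (N * L + ∑ s ∈ Ico s0 s1, D s ^ 2) <
      |∑ s ∈ Ico s0 s1, D s * win (fun n => Y n ω) s L|} ≤
      2 * Real.exp (-(δ ^ 2 * N / (2 * b ^ 2 * L))) := by
  have hL0 : (0 : ℝ) < L := by exact_mod_cast hL
  have hN0 : (0 : ℝ) < N := by exact_mod_cast hN
  obtain ⟨S, hS⟩ : ∃ S, S = ∑ s ∈ Ico s0 s1, D s ^ 2 := ⟨_, rfl⟩
  have hS0 : 0 ≤ S := by rw [hS]; exact Finset.sum_nonneg fun _ _ => sq_nonneg _
  have hW0 : 0 ≤ (L : ℝ) ^ 2 * (N * L + S) := by positivity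
  have h := tail_lin (μ := μ) hi hm hb0 (A := Ico s0 (s1 + L))
    (fun n hn ω => hbd n (lt_of_lt_of_le (mem_Ico.1 hn).2 hs) ω) (fun n _ => h0 n)
    (fun n => ∑ s ∈ (Ico s0 s1).filter (fun s => s ≤ n ∧ n < s + L), D s)
    (W := (L : ℝ) ^ 2 * (N * L + S)) hW0 (by
      refine (coef_le D s0 s1 L).trans ?_
      rw [← hS]
      have : 0 ≤ (L : ℝ) ^ 2 * (N * L) := by positivity
      nlinarith) (t := δ * (N * L + S)) (by positivity)
  refine (measureReal_mono ?_).trans (h.trans ?_)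
  · intro ω hω
    have hω' : δ * (N * L + ∑ s ∈ Ico s0 s1, D s ^ 2) <
      |∑ s ∈ Ico s0 s1, D s * win (fun n => Y n ω) s L| := hω
    rw [← hS, swap_sum] at hω'
    exact hω'.le
  · refine mul_le_mul_of_nonneg_left (Real.exp_le_exp.2 ?_) (by norm_num)
    rw [neg_le_neg_iff]
    have hNL : 0 < N * L + S := by positivity
    rw [div_le_div_iff₀ (by positivity) (by positivity)]
    have : (N : ℝ) * L ≤ N * L + S := by linarith
    have h5 : δ ^ 2 * N * (2 * b ^ 2 * ((L : ℝ) ^ 2 * (N * L + S))) =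
        (2 * δ ^ 2 * b ^ 2 * L * (N * L + S)) * (N * L) := by ring
    have h6 : (δ * (N * L + S)) ^ 2 * (2 * b ^ 2 * L) = (2 * δ ^ 2 * b ^ 2 * L * (N * L + S)) * (N * L + S) := by
      ring
    rw [h5, h6]
    exact mul_le_mul_of_nonneg_left this (by positivity)

/-- truncation costs little -/
theorem E4 {Y : ℕ → Ω → ℝ} (hi : iIndepFun Y μ) (hm : ∀ n, Measurable (Y n)) {b y : ℝ} (hb0 : 0 < b)
    (hy : 0 ≤ y) {N : ℕ} (hbd : ∀ n < 3 * N, ∀ ω, |Y n ω| ≤ b) (h0 : ∀ n, ∫ ω, Y n ω ∂μ = 0)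
    (s L : ℕ) (hL : 1 ≤ L) (hs : s + L ≤ 3 * N) :
    |∫ ω, win (fun n => Y n ω) s L ^ 2 ∂μ - ∫ ω, tr (L * b ^ 2 * y ^ 2) (win (fun n => Y n ω) s L) ∂μ| ≤
      (b * L) ^ 2 * (2 * Real.exp (-(y ^ 2 / 2))) := by
  have hL0 : (0 : ℝ) < L := by exact_mod_cast hL
  have hT : 0 ≤ L * b ^ 2 * y ^ 2 := by positivity
  have hmw : Measurable (fun ω => win (fun n => Y n ω) s L) := Finset.measurable_fun_sum _ (fun n _ => hm n)
  have hwb : ∀ ω, |win (fun n => Y n ω) s L| ≤ b * L := by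
    intro ω
    refine (abs_sum_le_sum_abs _ _).trans ?_
    refine (Finset.sum_le_card_nsmul _ _ b (fun n hn => hbd n (lt_of_lt_of_le (mem_Ico.1 hn).2 hs) ω)).trans ?_
    rw [Nat.card_Ico, nsmul_eq_mul]
    apply le_of_eq
    have : s + L - s = L := by omega
    rw [this]
    ring
  have hwb2 : ∀ ω, win (fun n => Y n ω) s L ^ 2 ≤ (b * L) ^ 2 := by
    intro ω
    rw [← sq_abs]
    exact pow_le_pow_left₀ (abs_nonneg _) (hwb ω) 2
  have hint1 : Integrable (fun ω => win (fun n => Y n ω) s L ^ 2) μ :=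
    Integrable.of_bound (hmw.pow_const 2).aestronglyMeasurable ((b * L) ^ 2) (Eventually.of_forall fun ω => by
      rw [Real.norm_of_nonneg (sq_nonneg _)]; exact hwb2 ω)
  have hint2 : Integrable (fun ω => tr (L * b ^ 2 * y ^ 2) (win (fun n => Y n ω) s L)) μ :=
    Integrable.of_bound ((meas_tr _).comp hmw).aestronglyMeasurable (L * b ^ 2 * y ^ 2)
      (Eventually.of_forall fun ω => by
        rw [Real.norm_of_nonneg (tr_nonneg hT)]; exact tr_le)
  rw [← integral_sub hint1 hint2]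
  have hset : MeasurableSet {ω | L * b ^ 2 * y ^ 2 < win (fun n => Y n ω) s L ^ 2} :=
    measurableSet_lt measurable_const (hmw.pow_const 2)
  have hpt : ∀ ω, win (fun n => Y n ω) s L ^ 2 - tr (L * b ^ 2 * y ^ 2) (win (fun n => Y n ω) s L) ≤
      Set.indicator {ω | L * b ^ 2 * y ^ 2 < win (fun n => Y n ω) s L ^ 2} (fun _ => (b * L) ^ 2) ω := by
    intro ω
    by_cases h : L * b ^ 2 * y ^ 2 < win (fun n => Y n ω) s L ^ 2
    · rw [Set.indicator_of_mem (show ω ∈ {ω | L * b ^ 2 * y ^ 2 < win (fun n => Y n ω) s L ^ 2} from h)]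
      have := tr_nonneg (x := win (fun n => Y n ω) s L) hT
      linarith [hwb2 ω]
    · rw [Set.indicator_of_notMem (show ω ∉ {ω | L * b ^ 2 * y ^ 2 < win (fun n => Y n ω) s L ^ 2} from h)]
      unfold tr
      rw [min_eq_left (not_lt.1 h), sub_self]
  have hnn : ∀ ω, 0 ≤ win (fun n => Y n ω) s L ^ 2 - tr (L * b ^ 2 * y ^ 2) (win (fun n => Y n ω) s L) := by
    intro ω
    unfold tr
    linarith [min_le_left (win (fun n => Y n ω) s L ^ 2) (L * b ^ 2 * y ^ 2)]
  rw [abs_of_nonneg (integral_nonneg hnn)]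
  calc ∫ ω, (win (fun n => Y n ω) s L ^ 2 - tr (L * b ^ 2 * y ^ 2) (win (fun n => Y n ω) s L)) ∂μ
      ≤ ∫ ω, Set.indicator {ω | L * b ^ 2 * y ^ 2 < win (fun n => Y n ω) s L ^ 2} (fun _ => (b * L) ^ 2) ω ∂μ :=
        integral_mono (hint1.sub hint2) ((integrable_const _).indicator hset) hpt
    _ = (b * L) ^ 2 * μ.real {ω | L * b ^ 2 * y ^ 2 < win (fun n => Y n ω) s L ^ 2} := by
        rw [integral_indicator_const _ hset, smul_eq_mul, mul_comm]
    _ ≤ _ := mul_le_mul_of_nonneg_left (E1 hi hm hb0 hy hbd h0 s L hL hs) (by positivity)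

/-- the second moment of a window sum is the sum of the variances -/
theorem E5 {Y : ℕ → Ω → ℝ} (hi : iIndepFun Y μ) (hm : ∀ n, Measurable (Y n)) {b : ℝ}
    {N : ℕ} (hbd : ∀ n < 3 * N, ∀ ω, |Y n ω| ≤ b) (h0 : ∀ n, ∫ ω, Y n ω ∂μ = 0)
    (s L : ℕ) (hs : s + L ≤ 3 * N) :
    ∫ ω, win (fun n => Y n ω) s L ^ 2 ∂μ = win (fun n => ∫ ω, Y n ω ^ 2 ∂μ) s L := by
  induction L with
  | zero => simp [win]
  | succ L ih =>
    have ih' := ih (by omega)
    have hmw : Measurable (fun ω => win (fun n => Y n ω) s L) := Finset.measurable_fun_sum _ (fun n _ => hm n)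
    have hwb : ∀ ω, |win (fun n => Y n ω) s L| ≤ b * L := by
      intro ω
      refine (abs_sum_le_sum_abs _ _).trans ?_
      refine (Finset.sum_le_card_nsmul _ _ b (fun n hn => hbd n (by have := (mem_Ico.1 hn).2; omega) ω)).trans ?_
      rw [Nat.card_Ico, nsmul_eq_mul]
      apply le_of_eq
      have : s + L - s = L := by omega
      rw [this]
      ring
    have hYb := hbd (s + L) (by omega)
    have hind : IndepFun (fun ω => win (fun n => Y n ω) s L) (Y (s + L)) μ := by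
      apply indep_blocks hi hm (S := Set.Iio (s + L)) (T := Set.Ici (s + L))
      · exact Set.disjoint_left.2 (fun x h1 h2 => absurd (Set.mem_Iio.1 h1) (not_lt.2 (Set.mem_Ici.1 h2)))
      · exact meas_block (fun n hn => Set.mem_Iio.2 (mem_Ico.1 hn).2)
      · exact (comap_measurable (Y (s + L))).mono
          (le_iSup₂ (f := fun n (_ : n ∈ Set.Ici (s + L)) => MeasurableSpace.comap (Y n) inferInstance)
            (s + L) (Set.mem_Ici.2 le_rfl)) le_rfl
    have e : ∀ ω, win (fun n => Y n ω) s (L + 1) = win (fun n => Y n ω) s L + Y (s + L) ω := by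
      intro ω
      unfold win
      rw [← add_assoc, Finset.sum_Ico_succ_top (by omega)]
    have e2 : win (fun n => ∫ ω, Y n ω ^ 2 ∂μ) s (L + 1) =
        win (fun n => ∫ ω, Y n ω ^ 2 ∂μ) s L + ∫ ω, Y (s + L) ω ^ 2 ∂μ := by
      unfold win
      rw [← add_assoc, Finset.sum_Ico_succ_top (by omega)]
    rw [e2, ← ih']
    have hi1 : Integrable (fun ω => win (fun n => Y n ω) s L ^ 2) μ :=
      Integrable.of_bound (hmw.pow_const 2).aestronglyMeasurable ((b * L) ^ 2) (Eventually.of_forall fun ω => by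
        rw [Real.norm_of_nonneg (sq_nonneg _), ← sq_abs]; exact pow_le_pow_left₀ (abs_nonneg _) (hwb ω) 2)
    have hi2 : Integrable (fun ω => Y (s + L) ω ^ 2) μ :=
      Integrable.of_bound ((hm _).pow_const 2).aestronglyMeasurable (b ^ 2) (Eventually.of_forall fun ω => by
        rw [Real.norm_of_nonneg (sq_nonneg _), ← sq_abs]; exact pow_le_pow_left₀ (abs_nonneg _) (hYb ω) 2)
    have hi3 : Integrable (fun ω => win (fun n => Y n ω) s L * Y (s + L) ω) μ :=
      Integrable.of_bound (hmw.mul (hm _)).aestronglyMeasurable ((b * L) * b) (Eventually.of_forall fun ω => by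
        rw [Real.norm_eq_abs, abs_mul]
        exact mul_le_mul (hwb ω) (hYb ω) (abs_nonneg _) ((abs_nonneg _).trans (hwb ω)))
    have hz : ∫ ω, win (fun n => Y n ω) s L * Y (s + L) ω ∂μ = 0 := by
      have h := hind.integral_mul_eq_mul_integral hmw.aestronglyMeasurable (hm (s + L)).aestronglyMeasurable
      have h' : ∫ ω, win (fun n => Y n ω) s L * Y (s + L) ω ∂μ =
          (∫ ω, win (fun n => Y n ω) s L ∂μ) * ∫ ω, Y (s + L) ω ∂μ := h
      rw [h', h0, mul_zero]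
    have e3 : ∀ ω, win (fun n => Y n ω) s (L + 1) ^ 2 = win (fun n => Y n ω) s L ^ 2 +
        (2 * (win (fun n => Y n ω) s L * Y (s + L) ω) + Y (s + L) ω ^ 2) := by
      intro ω
      rw [e ω]; ring
    have e4 : ∫ ω, (2 * (win (fun n => Y n ω) s L * Y (s + L) ω) + Y (s + L) ω ^ 2) ∂μ =
        ∫ ω, Y (s + L) ω ^ 2 ∂μ := by
      rw [integral_add (hi3.const_mul 2) hi2, integral_const_mul, hz]
      ring
    have e5 : Integrable (fun ω => 2 * (win (fun n => Y n ω) s L * Y (s + L) ω) + Y (s + L) ω ^ 2) μ :=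
      (hi3.const_mul 2).add hi2
    simp_rw [e3]
    rw [integral_add hi1 e5, e4]

end Pool.Agent.D0H68.RV
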