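import Pool.Agent.D0H68.RV.Law

set_option autoImplicit false

open MeasureTheory ProbabilityTheory Filter Topology
open scoped Finset

namespace Pool.Agent.D0H68.RV

variable {Ω : Type*} [mΩ : MeasurableSpace Ω] {μ : Measure Ω} [IsProbabilityMeasure μ]

theorem numX {e : ℝ} (he0 : 0 < e) (he1 : e ≤ 1 / 2) : ∀ᶠ X : ℝ in atTop, 5 ≤ X ∧ ∀ H : ℝ, X ^ e ≤ H → H ≤ X ^ (1 - e) →
    1 ≤ H ∧ ((⌈X⌉₊ : ℝ) ^ (e / 2 / 16)) ^ 4 ≤ H ∧ H + 1 ≤ (⌈X⌉₊ : ℝ) ^ (1 - e / 2) ∧ H + 4 ≤ X := by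
  filter_upwards [eventually_ge_atTop 5, (tendsto_rpow_atTop (show 0 < e / 2 by linarith)).eventually
    (eventually_ge_atTop 5)] with X hX hXe
  have hX0 : 0 < X := by linarith
  have hX1 : 1 ≤ X := by linarith
  have c1 : X ≤ ⌈X⌉₊ := Nat.le_ceil X
  have c2 : (⌈X⌉₊ : ℝ) < X + 1 := Nat.ceil_lt_add_one hX0.le
  refine ⟨hX, fun H h1 h2 => ?_⟩
  have hH1 : 1 ≤ H := (Real.one_le_rpow hX1 he0.le).trans h1
  have hp1 : 1 ≤ X ^ (1 - e) := Real.one_le_rpow hX1 (by linarith)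
  have hmul : X ^ (e / 2) * X ^ (1 - e) = X ^ (1 - e / 2) := by
    rw [← Real.rpow_add hX0]; congr 1; ring
  have h5 : 5 * X ^ (1 - e) ≤ X ^ (1 - e / 2) := by
    rw [← hmul]
    exact mul_le_mul_of_nonneg_right hXe (by positivity)
  refine ⟨hH1, ?_, ?_, ?_⟩
  · rw [← Real.rpow_natCast, ← Real.rpow_mul (by positivity)]
    refine le_trans ?_ h1
    calc (⌈X⌉₊ : ℝ) ^ (e / 2 / 16 * ((4 : ℕ) : ℝ)) ≤ (X ^ (2 : ℝ)) ^ (e / 2 / 16 * ((4 : ℕ) : ℝ)) := by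
          apply Real.rpow_le_rpow (by positivity) _ (by positivity)
          rw [Real.rpow_two]
          nlinarith
      _ = X ^ (e / 4) := by
          rw [← Real.rpow_mul hX0.le]; congr 1; push_cast; ring
      _ ≤ X ^ e := Real.rpow_le_rpow_of_exponent_le hX1 (by linarith)
  · calc H + 1 ≤ X ^ (1 - e) + X ^ (1 - e) := add_le_add h2 hp1
      _ ≤ X ^ (1 - e / 2) := by linarith
      _ ≤ (⌈X⌉₊ : ℝ) ^ (1 - e / 2) := Real.rpow_le_rpow hX0.le c1 (by linarith)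
  · have : X ^ (1 - e / 2) ≤ X ^ (1 : ℝ) := Real.rpow_le_rpow_of_exponent_le hX1 (by linarith)
    rw [Real.rpow_one] at this
    linarith

theorem exact_ae {ξ : ℕ → Ω → ℝ} (hi : iIndepFun ξ μ) (hm : ∀ n, Measurable (ξ n)) {C : ℝ} (hC0 : 0 ≤ C)
    (κ : ℕ) (hb : ∀ n ω, |ξ n ω| ≤ C * Real.log (n + 3) ^ κ) :
    ∀ᵐ ω ∂μ, Exact (fun n => ξ n ω) (fun n => ∫ ω', ξ n ω' ∂μ)
      (fun n => ∫ ω', (ξ n ω' - ∫ ω'', ξ n ω'' ∂μ) ^ 2 ∂μ) := by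
  have hint : ∀ n, Integrable (ξ n) μ := fun n =>
    Integrable.of_bound (hm n).aestronglyMeasurable _ (Eventually.of_forall fun ω => hb n ω)
  have hi' : iIndepFun (fun n ω => ξ n ω - ∫ ω', ξ n ω' ∂μ) μ :=
    hi.comp (fun n x => x - ∫ ω', ξ n ω' ∂μ) (fun n => measurable_id.sub_const _)
  have hm' : ∀ n, Measurable (fun ω => ξ n ω - ∫ ω', ξ n ω' ∂μ) := fun n => (hm n).sub_const _
  have h0' : ∀ n, ∫ ω, (ξ n ω - ∫ ω', ξ n ω' ∂μ) ∂μ = 0 := fun n => by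
    rw [integral_sub (hint n) (integrable_const _)]; simp
  have hmean : ∀ n, |∫ ω', ξ n ω' ∂μ| ≤ C * Real.log (n + 3) ^ κ := fun n => by
    have h := norm_integral_le_of_norm_le_const (μ := μ) (f := ξ n) (Eventually.of_forall fun ω => hb n ω)
    simpa using h
  have hlogs : ∀ N : ℕ, 1 ≤ N → ∀ n < 3 * N, C * Real.log (n + 3) ^ κ ≤ C * Real.log (3 * N + 3) ^ κ ∧
      1 ≤ Real.log (3 * N + 3) ^ κ := by
    intro N hN n hn
    have hl0 : 0 ≤ Real.log (n + 3) := Real.log_nonneg (by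
      have : (0 : ℝ) ≤ n := Nat.cast_nonneg n
      linarith)
    have hn' : (n : ℝ) < 3 * N := by exact_mod_cast hn
    have hN' : (1 : ℝ) ≤ N := by exact_mod_cast hN
    have hl1 : Real.log (n + 3) ≤ Real.log (3 * N + 3) := Real.log_le_log (by positivity) (by linarith)
    refine ⟨mul_le_mul_of_nonneg_left (pow_le_pow_left₀ hl0 hl1 κ) hC0, one_le_pow₀ ?_⟩
    rw [Real.le_log_iff_exp_le (by linarith)]
    linarith [Real.exp_one_lt_d9]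
  have hbY : ∀ N : ℕ, 1 ≤ N → ∀ n < 3 * N, ∀ ω, |ξ n ω - ∫ ω', ξ n ω' ∂μ| ≤
      (2 * C + 1) * Real.log (3 * N + 3) ^ κ := by
    intro N hN n hn ω
    obtain ⟨h4, h5⟩ := hlogs N hN n hn
    have h1 := abs_sub (ξ n ω) (∫ ω', ξ n ω' ∂μ)
    have h2 := hb n ω
    have h3 := hmean n
    nlinarith
  have hbm : ∀ N : ℕ, 1 ≤ N → ∀ n < 3 * N, |∫ ω', ξ n ω' ∂μ| ≤ (2 * C + 1) * Real.log (3 * N + 3) ^ κ := by
    intro N hN n hn
    obtain ⟨h4, h5⟩ := hlogs N hN n hn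
    have h3 := hmean n
    nlinarith
  have hall : ∀ᵐ ω ∂μ, ∀ k : ℕ, ∀ᶠ N : ℕ in atTop,
      Good N ((N : ℝ) ^ (1 - 1 / ((k : ℝ) + 2) / 2)) (1 / (122 * ((k : ℝ) + 2)))
        ((2 * C + 1) * Real.log (3 * N + 3) ^ κ) ((N : ℝ) ^ (1 / ((k : ℝ) + 2) / 2 / 16))
        (fun n => ξ n ω - ∫ ω', ξ n ω' ∂μ) (fun n => ∫ ω', ξ n ω' ∂μ)
        (fun (s L : ℕ) => ∫ ω', tr (L * ((2 * C + 1) * Real.log (3 * N + 3) ^ κ) ^ 2 *
          ((N : ℝ) ^ (1 / ((k : ℝ) + 2) / 2 / 16)) ^ 2) (win (fun n => ξ n ω' - ∫ ω'', ξ n ω'' ∂μ) s L) ∂μ) := by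
    rw [ae_all_iff]
    intro k
    have hk : (0 : ℝ) < (k : ℝ) + 2 := by positivity
    have hk1 : 1 / ((k : ℝ) + 2) ≤ 1 / 2 := by
      apply one_div_le_one_div_of_le (by norm_num)
      have : (0 : ℝ) ≤ k := Nat.cast_nonneg k
      linarith
    exact good_ae hi hm hC0 κ hb (by positivity) (by linarith) (by positivity)
  filter_upwards [hall] with ω hω
  intro ε hε
  obtain ⟨k, hk⟩ := exists_nat_gt (1 / ε)
  obtain ⟨e, he⟩ : ∃ e : ℝ, e = 1 / ((k : ℝ) + 2) := ⟨_, rfl⟩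
  obtain ⟨δ, hδ⟩ : ∃ δ : ℝ, δ = 1 / (122 * ((k : ℝ) + 2)) := ⟨_, rfl⟩
  have hk0 : (0 : ℝ) ≤ k := Nat.cast_nonneg k
  have he0 : 0 < e := by rw [he]; positivity
  have he1 : e ≤ 1 / 2 := by
    rw [he]; apply one_div_le_one_div_of_le (by norm_num); linarith
  have heε : e ≤ ε := by
    rw [he, div_le_iff₀ (by positivity)]
    rw [div_lt_iff₀ hε] at hk
    nlinarith
  have hδ0 : 0 < δ := by rw [hδ]; positivity
  have hδ1 : δ ≤ 1 := by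
    rw [hδ, div_le_one (by positivity)]; nlinarith
  have hδe : 122 * δ = e := by rw [hδ, he]; field_simp
  have hG := hω k
  rw [← he, ← hδ] at hG
  have hceil : Tendsto (fun X : ℝ => ⌈X⌉₊) atTop atTop := tendsto_nat_ceil_atTop
  filter_upwards [hceil.eventually hG, hceil.eventually (num (e / 2) δ (2 * C + 1) κ (by linarith) hδ0 (by linarith)),
    numX he0 he1] with X g1 g2 g3 H r1 r2
  obtain ⟨hX5, g4⟩ := g3
  obtain ⟨q1, q2, q3, q4, q5, q6⟩ := g2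
  obtain ⟨s1, s2⟩ := range_mono (by linarith : (1 : ℝ) ≤ X) heε r1 r2
  obtain ⟨w1, w2, w3, w4⟩ := g4 H s1 s2
  obtain ⟨N, hN⟩ : ∃ N, N = ⌈X⌉₊ := ⟨_, rfl⟩
  rw [← hN] at g1 q1 q2 q3 q4 q5 q6 w2 w3
  obtain ⟨b, hbdef⟩ : ∃ b : ℝ, b = (2 * C + 1) * Real.log (3 * N + 3) ^ κ := ⟨_, rfl⟩
  obtain ⟨y, hydef⟩ : ∃ y : ℝ, y = (N : ℝ) ^ (e / 2 / 16) := ⟨_, rfl⟩
  have hbYN := hbY N q1
  have hbmN := hbm N q1
  rw [← hbdef] at q2 q3 g1 hbYN hbmN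
  rw [← hydef] at q3 q4 q5 q6 g1 w2
  have hN0 : (0 : ℝ) < N := by exact_mod_cast q1
  have hN1 : (1 : ℝ) ≤ N := by exact_mod_cast q1
  have hb0 : 0 < b := by linarith
  have hy0 : 0 < y := by linarith
  have hyN : y ≤ N := by
    rw [hydef]
    calc (N : ℝ) ^ (e / 2 / 16) ≤ (N : ℝ) ^ (1 : ℝ) := Real.rpow_le_rpow_of_exponent_le hN1 (by linarith)
      _ = N := Real.rpow_one _
  have hδN : 1 ≤ δ * N := by
    have h1 : δ ^ 2 * y ≤ δ * y := by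
      refine mul_le_mul_of_nonneg_right ?_ hy0.le
      nlinarith
    have h2 : δ * y ≤ δ * N := mul_le_mul_of_nonneg_left hyN hδ0.le
    linarith
  have hLN : ∀ L : ℕ, (L : ℝ) ≤ (N : ℝ) ^ (1 - e / 2) → (L : ℝ) ≤ N := by
    intro L hL
    calc (L : ℝ) ≤ (N : ℝ) ^ (1 - e / 2) := hL
      _ ≤ (N : ℝ) ^ (1 : ℝ) := Real.rpow_le_rpow_of_exponent_le hN1 (by linarith)
      _ = N := Real.rpow_one _
  have hexp : Real.exp (-(y ^ 2 / 2)) ≤ 1 / (N : ℝ) ^ 8 := by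
    have : Real.exp (-(y ^ 2 / 2)) ≤ Real.exp (-(8 * Real.log N)) := Real.exp_le_exp.2 (by linarith)
    refine this.trans (le_of_eq ?_)
    rw [Real.exp_neg, one_div]
    congr 1
    rw [show (8 : ℝ) * Real.log N = ((8 : ℕ) : ℝ) * Real.log N by norm_num, Real.exp_nat_mul,
      Real.exp_log hN0]
  have hvb : ∀ n < 3 * N, ∫ ω', (ξ n ω' - ∫ ω'', ξ n ω'' ∂μ) ^ 2 ∂μ ≤ b ^ 2 := by
    intro n hn
    have hle : ∀ ω', (ξ n ω' - ∫ ω'', ξ n ω'' ∂μ) ^ 2 ≤ b ^ 2 := fun ω' => by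
      rw [← sq_abs]; exact pow_le_pow_left₀ (abs_nonneg _) (hbYN n hn ω') 2
    have hi2 : Integrable (fun ω' => (ξ n ω' - ∫ ω'', ξ n ω'' ∂μ) ^ 2) μ :=
      Integrable.of_bound ((hm' n).pow_const 2).aestronglyMeasurable (b ^ 2) (Eventually.of_forall fun ω' => by
        rw [Real.norm_of_nonneg (sq_nonneg _)]; exact hle ω')
    calc ∫ ω', (ξ n ω' - ∫ ω'', ξ n ω'' ∂μ) ^ 2 ∂μ ≤ ∫ _, b ^ 2 ∂μ := integral_mono hi2 (integrable_const _) hle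
      _ = b ^ 2 := by simp
  have hlaw := law_of_good (v := fun n => ∫ ω', (ξ n ω' - ∫ ω'', ξ n ω'' ∂μ) ^ 2 ∂μ) g1 hδ0 hδ1 q2 q3 q4
    (fun n hn => hbYN n hn ω) hbmN (fun n _ => integral_nonneg fun ω' => sq_nonneg _) hvb
    (by
      intro L hL
      have e1 : y ^ 16 = (N : ℝ) ^ (e / 2) := by
        rw [hydef, ← Real.rpow_natCast, ← Real.rpow_mul hN0.le]
        congr 1
        push_cast
        ring
      have e2 : (N : ℝ) ^ (1 - e / 2) * (N : ℝ) ^ (e / 2) = N := by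
        rw [← Real.rpow_add hN0]
        simp
      rw [e1]
      calc (L : ℝ) * (N : ℝ) ^ (e / 2) ≤ (N : ℝ) ^ (1 - e / 2) * (N : ℝ) ^ (e / 2) :=
            mul_le_mul_of_nonneg_right hL (by positivity)
        _ = N := e2)
    (τ := δ)
    (by
      intro L s hL1 hL2 hs
      have h4 := E4 hi' hm' hb0 hy0.le hbYN h0' s L hL1 hs
      have h5 := E5 hi' hm' hbYN h0' s L hs
      rw [h5] at h4
      refine h4.trans ?_
      have hL0 : (0 : ℝ) ≤ L := Nat.cast_nonneg L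
      have t1 : b * L ≤ (N : ℝ) * N := mul_le_mul (q3.trans hyN) (hLN L hL2) hL0 hN0.le
      have t2 : (b * L) ^ 2 ≤ ((N : ℝ) * N) ^ 2 := pow_le_pow_left₀ (by positivity) t1 2
      calc (b * L) ^ 2 * (2 * Real.exp (-(y ^ 2 / 2))) ≤ ((N : ℝ) * N) ^ 2 * (2 * (1 / (N : ℝ) ^ 8)) :=
            mul_le_mul t2 (by linarith) (by positivity) (by positivity)
        _ = 2 / (N : ℝ) ^ 4 := by field_simp
        _ ≤ 1 / N := by
            rw [div_le_div_iff₀ (by positivity) hN0]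
            have hN5 : (5 : ℝ) ≤ N := by
              have : X ≤ N := by rw [hN]; exact Nat.le_ceil X
              linarith
            have : (2 : ℝ) ≤ (N : ℝ) ^ 3 := by
              calc (2 : ℝ) ≤ 5 ^ 3 := by norm_num
                _ ≤ (N : ℝ) ^ 3 := pow_le_pow_left₀ (by norm_num) hN5 3
            calc 2 * (N : ℝ) ≤ (N : ℝ) ^ 3 * N := mul_le_mul_of_nonneg_right this hN0.le
              _ = 1 * (N : ℝ) ^ 4 := by ring
        _ ≤ δ := by rw [div_le_iff₀ hN0]; exact hδN)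
    hδ0.le le_rfl (by linarith : (1 : ℝ) ≤ X) hN w1 w2 w3 w4
  have efun : (fun n => ∫ ω', ξ n ω' ∂μ + (ξ n ω - ∫ ω', ξ n ω' ∂μ)) = fun n => ξ n ω := by
    funext n; ring
  rw [efun, hδe] at hlaw
  rw [show msq (fun n => ξ n ω) X H - (H * VV (fun n => ∫ ω', (ξ n ω' - ∫ ω'', ξ n ω'' ∂μ) ^ 2 ∂μ) X +
    msq (fun n => ∫ ω', ξ n ω' ∂μ) X H) = msq (fun n => ξ n ω) X H - msq (fun n => ∫ ω', ξ n ω' ∂μ) X H -
    H * VV (fun n => ∫ ω', (ξ n ω' - ∫ ω'', ξ n ω'' ∂μ) ^ 2 ∂μ) X by ring]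
  refine hlaw.trans ?_
  refine mul_le_mul_of_nonneg_right heε ?_
  have := msq_nonneg (fun n => ∫ ω', ξ n ω' ∂μ) (by linarith : 0 < X) H
  linarith

end Pool.Agent.D0H68.RV
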