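import Mathlib

set_option autoImplicit false

open MeasureTheory ProbabilityTheory Finset
open scoped NNReal

namespace Pool.Agent.D0H68.RV

variable {Ω : Type*} [mΩ : MeasurableSpace Ω] {μ : Measure Ω} [IsProbabilityMeasure μ]

omit [IsProbabilityMeasure μ] in
theorem sg_mono {X : Ω → ℝ} {c c' : ℝ≥0} (h : HasSubgaussianMGF X c μ) (hc : c ≤ c') :
    HasSubgaussianMGF X c' μ where
  integrable_exp_mul := h.integrable_exp_mul
  mgf_le t := by
    refine (h.mgf_le t).trans (Real.exp_le_exp.2 ?_)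
    have : (c : ℝ) ≤ c' := by exact_mod_cast hc
    nlinarith [sq_nonneg t, mul_le_mul_of_nonneg_right this (sq_nonneg t)]

theorem sg_bdd {X : Ω → ℝ} (hm : Measurable X) {b : ℝ≥0} (hb : ∀ ω, |X ω| ≤ b) (h0 : ∫ ω, X ω ∂μ = 0) :
    HasSubgaussianMGF X (b ^ 2) μ := by
  have h := hasSubgaussianMGF_of_mem_Icc_of_integral_eq_zero (μ := μ) (X := X) (a := -(b : ℝ)) (b := (b : ℝ))
    hm.aemeasurable (Filter.Eventually.of_forall fun ω => abs_le.1 (hb ω)) h0
  refine sg_mono h (le_of_eq ?_)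
  congr 1
  have : ((b : ℝ) - -(b : ℝ)) = ((2 * b : ℝ≥0) : ℝ) := by push_cast; ring
  rw [this]
  ext
  push_cast
  rw [Real.norm_of_nonneg (by positivity)]
  ring

theorem sg_tail {X : Ω → ℝ} {c : ℝ≥0} (h : HasSubgaussianMGF X c μ) {t : ℝ} (ht : 0 ≤ t) :
    μ.real {ω | t ≤ |X ω|} ≤ 2 * Real.exp (-t ^ 2 / (2 * c)) := by
  have h1 := h.measure_ge_le ht
  have h2 := h.neg.measure_ge_le ht
  have hsub : {ω | t ≤ |X ω|} ⊆ {ω | t ≤ X ω} ∪ {ω | t ≤ (-X) ω} := by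
    intro ω hω
    rcases le_abs.1 (show t ≤ |X ω| from hω) with h | h
    · exact Or.inl h
    · exact Or.inr h
  calc μ.real {ω | t ≤ |X ω|} ≤ μ.real ({ω | t ≤ X ω} ∪ {ω | t ≤ (-X) ω}) := measureReal_mono hsub
    _ ≤ μ.real {ω | t ≤ X ω} + μ.real {ω | t ≤ (-X) ω} := measureReal_union_le _ _
    _ ≤ 2 * Real.exp (-t ^ 2 / (2 * c)) := by linarith

/-- Hoeffding for weighted sums. -/
theorem sg_lin {Y : ℕ → Ω → ℝ} (hi : iIndepFun Y μ) (hm : ∀ n, Measurable (Y n)) {b : ℝ≥0}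
    {A : Finset ℕ} (hbd : ∀ n ∈ A, ∀ ω, |Y n ω| ≤ b) (h0 : ∀ n ∈ A, ∫ ω, Y n ω ∂μ = 0)
    (c : ℕ → ℝ) {W : ℝ≥0} (hW : ∑ n ∈ A, c n ^ 2 ≤ W) :
    HasSubgaussianMGF (fun ω => ∑ n ∈ A, c n * Y n ω) (b ^ 2 * W) μ := by
  have hi' : iIndepFun (fun n ω => c n * Y n ω) μ :=
    hi.comp (fun n x => c n * x) (fun n => measurable_const_mul (c n))
  have h := HasSubgaussianMGF.sum_of_iIndepFun (μ := μ) (X := fun n ω => c n * Y n ω) hi'
    (c := fun n => Real.toNNReal (c n ^ 2) * b ^ 2) (s := A)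
    (fun n hn => sg_mono ((sg_bdd (hm n) (hbd n hn) (h0 n hn)).const_mul (c n)) (by
      rw [← NNReal.coe_le_coe]
      push_cast
      rw [Real.coe_toNNReal _ (sq_nonneg _)]
      exact le_rfl))
  refine sg_mono h ?_
  rw [← Finset.sum_mul, mul_comm]
  refine mul_le_mul_of_nonneg_left ?_ zero_le
  rw [← NNReal.coe_le_coe]
  push_cast
  refine le_trans (le_of_eq ?_) hW
  exact Finset.sum_congr rfl fun n _ => Real.coe_toNNReal _ (sq_nonneg _)

omit [IsProbabilityMeasure μ] in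
theorem indep_blocks {Y : ℕ → Ω → ℝ} (hi : iIndepFun Y μ) (hm : ∀ n, Measurable (Y n)) {S T : Set ℕ}
    (hST : Disjoint S T) {F G : Ω → ℝ}
    (hF : Measurable[⨆ n ∈ S, MeasurableSpace.comap (Y n) inferInstance] F)
    (hG : Measurable[⨆ n ∈ T, MeasurableSpace.comap (Y n) inferInstance] G) :
    IndepFun F G μ := by
  have h1 : Indep (⨆ n ∈ S, MeasurableSpace.comap (Y n) inferInstance)
      (⨆ n ∈ T, MeasurableSpace.comap (Y n) inferInstance) μ :=
    indep_iSup_of_disjoint (fun n => (hm n).comap_le) hi.iIndep hST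
  rw [IndepFun_iff_Indep]
  exact indep_of_indep_of_le_left (indep_of_indep_of_le_right h1 hG.comap_le) hF.comap_le

omit mΩ in
theorem meas_block {Y : ℕ → Ω → ℝ} {S : Set ℕ} {A : Finset ℕ} (hA : ∀ n ∈ A, n ∈ S) :
    Measurable[⨆ n ∈ S, MeasurableSpace.comap (Y n) inferInstance] (fun ω => ∑ n ∈ A, Y n ω) := by
  refine Finset.measurable_fun_sum A (fun n hn => ?_)
  exact (comap_measurable (Y n)).mono
    (le_iSup₂ (f := fun n (_ : n ∈ S) => MeasurableSpace.comap (Y n) inferInstance) n (hA n hn)) le_rfl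

/-- the sum over the window of length `L` from `s` -/
noncomputable def win (f : ℕ → ℝ) (s L : ℕ) : ℝ := ∑ n ∈ Ico s (s + L), f n

theorem sg_blocks {Y : ℕ → Ω → ℝ} (hi : iIndepFun Y μ) (hm : ∀ n, Measurable (Y n)) (s L : ℕ)
    {φ : ℕ → ℝ → ℝ} (hφ : ∀ k, Measurable (φ k)) {B : ℝ≥0} (hB : ∀ k x, |φ k x| ≤ B) (K : ℕ)
    (h0 : ∀ k < K, ∫ ω, φ k (win (fun n => Y n ω) (s + k * L) L) ∂μ = 0) :
    HasSubgaussianMGF (fun ω => ∑ k ∈ range K, φ k (win (fun n => Y n ω) (s + k * L) L)) (K * B ^ 2) μ := by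
  have hmw : ∀ k, Measurable (fun ω => φ k (win (fun n => Y n ω) (s + k * L) L)) := fun k =>
    (hφ k).comp (Finset.measurable_fun_sum _ (fun n _ => hm n))
  induction K with
  | zero => simp
  | succ K ih =>
    have ih' := ih (fun k hk => h0 k (by omega))
    have hK := sg_bdd (hmw K) (fun ω => hB K _) (h0 K (by omega))
    have hind : IndepFun (fun ω => ∑ k ∈ range K, φ k (win (fun n => Y n ω) (s + k * L) L))
        (fun ω => φ K (win (fun n => Y n ω) (s + K * L) L)) μ := by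
      apply indep_blocks hi hm (S := Set.Iio (s + K * L)) (T := Set.Ici (s + K * L))
      · exact Set.disjoint_left.2 (fun x h1 h2 => absurd (Set.mem_Iio.1 h1) (not_lt.2 (Set.mem_Ici.1 h2)))
      · refine Finset.measurable_fun_sum _ (fun k hk => (hφ k).comp (meas_block ?_))
        intro n hn
        rw [mem_Ico] at hn
        have : k + 1 ≤ K := mem_range.1 hk
        have h3 : (k + 1) * L ≤ K * L := Nat.mul_le_mul_right L this
        have h4 : (k + 1) * L = k * L + L := by ring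
        exact Set.mem_Iio.2 (by omega)
      · refine (hφ K).comp (meas_block ?_)
        intro n hn
        exact Set.mem_Ici.2 (mem_Ico.1 hn).1
    have h := ih'.add_of_indepFun hK hind
    have e : (fun ω => ∑ k ∈ range (K + 1), φ k (win (fun n => Y n ω) (s + k * L) L)) =
        (fun ω => ∑ k ∈ range K, φ k (win (fun n => Y n ω) (s + k * L) L)) +
          (fun ω => φ K (win (fun n => Y n ω) (s + K * L) L)) := by
      funext ω
      simp only [Pi.add_apply, sum_range_succ]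
    rw [e]
    refine sg_mono h (le_of_eq ?_)
    push_cast
    ring

theorem tail_lin {Y : ℕ → Ω → ℝ} (hi : iIndepFun Y μ) (hm : ∀ n, Measurable (Y n)) {b : ℝ} (hb0 : 0 < b)
    {A : Finset ℕ} (hbd : ∀ n ∈ A, ∀ ω, |Y n ω| ≤ b) (h0 : ∀ n ∈ A, ∫ ω, Y n ω ∂μ = 0)
    (c : ℕ → ℝ) {W : ℝ} (hW0 : 0 ≤ W) (hW : ∑ n ∈ A, c n ^ 2 ≤ W) {t : ℝ} (ht : 0 ≤ t) :
    μ.real {ω | t ≤ |∑ n ∈ A, c n * Y n ω|} ≤ 2 * Real.exp (-(t ^ 2 / (2 * b ^ 2 * W))) := by
  have h := sg_lin (μ := μ) hi hm (b := b.toNNReal) (A := A)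
    (fun n hn ω => by rw [Real.coe_toNNReal b hb0.le]; exact hbd n hn ω) h0 c (W := W.toNNReal)
    (by rw [Real.coe_toNNReal W hW0]; exact hW)
  have h2 := sg_tail h ht
  rw [NNReal.coe_mul, NNReal.coe_pow, Real.coe_toNNReal b hb0.le, Real.coe_toNNReal W hW0] at h2
  refine h2.trans (le_of_eq ?_)
  rw [neg_div, ← mul_assoc]

theorem tail_blocks {Y : ℕ → Ω → ℝ} (hi : iIndepFun Y μ) (hm : ∀ n, Measurable (Y n)) (s L : ℕ)
    {φ : ℕ → ℝ → ℝ} (hφ : ∀ k, Measurable (φ k)) {B : ℝ} (hB0 : 0 ≤ B) (hB : ∀ k x, |φ k x| ≤ B) (K : ℕ)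
    (h0 : ∀ k < K, ∫ ω, φ k (win (fun n => Y n ω) (s + k * L) L) ∂μ = 0) {t : ℝ} (ht : 0 ≤ t) :
    μ.real {ω | t ≤ |∑ k ∈ range K, φ k (win (fun n => Y n ω) (s + k * L) L)|} ≤
      2 * Real.exp (-(t ^ 2 / (2 * K * B ^ 2))) := by
  have h := sg_blocks (μ := μ) hi hm s L hφ (B := B.toNNReal)
    (fun k x => by rw [Real.coe_toNNReal B hB0]; exact hB k x) K h0
  have h2 := sg_tail h ht
  rw [NNReal.coe_mul, NNReal.coe_pow, Real.coe_toNNReal B hB0, NNReal.coe_natCast] at h2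
  refine h2.trans (le_of_eq ?_)
  rw [neg_div, ← mul_assoc]

end Pool.Agent.D0H68.RV
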