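import Pool.Agent.D0H68.RV.Det

set_option autoImplicit false

open Finset MeasureTheory

namespace Pool.Agent.D0H68.RV

/-- the sum of `f n` over the integers `n ≥ 1` with `x - H / 2 ≤ n ≤ x + H / 2` -/
noncomputable def wsum (f : ℕ → ℝ) (x H : ℝ) : ℝ :=
  ∑ᶠ n ∈ {n : ℕ | 1 ≤ n ∧ x - H / 2 ≤ n ∧ (n : ℝ) ≤ x + H / 2}, f n

theorem wsum_eq (f : ℕ → ℝ) {x H : ℝ} (hx : 0 < x - H / 2) (hH : 0 ≤ H) :
    wsum f x H = ∑ n ∈ Icc ⌈x - H / 2⌉₊ ⌊x + H / 2⌋₊, f n := by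
  have hset : {n : ℕ | 1 ≤ n ∧ x - H / 2 ≤ n ∧ (n : ℝ) ≤ x + H / 2} =
      ((Icc ⌈x - H / 2⌉₊ ⌊x + H / 2⌋₊ : Finset ℕ) : Set ℕ) := by
    ext n
    simp only [coe_Icc, Set.mem_Icc]
    constructor
    · intro h
      have h' : 1 ≤ n ∧ x - H / 2 ≤ n ∧ (n : ℝ) ≤ x + H / 2 := h
      exact ⟨Nat.ceil_le.2 h'.2.1, (Nat.le_floor_iff (by linarith)).2 h'.2.2⟩
    · intro h
      have h1 := Nat.ceil_le.1 h.1
      have h2 := (Nat.le_floor_iff (show 0 ≤ x + H / 2 by linarith)).1 h.2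
      have h3 : (0 : ℝ) < n := by linarith
      have h4 : 0 < n := by exact_mod_cast h3
      exact ⟨h4, h1, h2⟩
  unfold wsum
  rw [hset, finsum_mem_coe_finset]

theorem fibre (H u : ℝ) (hH : 1 ≤ H) (hu0 : 0 ≤ u) (hu1 : u < 1) :
    ∃ α L : ℕ, α ≤ 2 ∧ 1 ≤ L ∧ |(L : ℝ) - H| ≤ 1 ∧ ∀ (f : ℕ → ℝ) (j : ℕ), ⌈H / 2⌉₊ < j →
      wsum f (j + u) H = win f (j - ⌈H / 2⌉₊ + α) L := by
  obtain ⟨h, hh⟩ : ∃ h, h = ⌈H / 2⌉₊ := ⟨_, rfl⟩
  have hh1 : H / 2 ≤ h := by rw [hh]; exact Nat.le_ceil _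
  have hh2 : (h : ℝ) < H / 2 + 1 := by rw [hh]; exact Nat.ceil_lt_add_one (by linarith)
  have t0 : 0 ≤ u + h - H / 2 := by linarith
  obtain ⟨α, hα⟩ : ∃ α, α = ⌈u + h - H / 2⌉₊ := ⟨_, rfl⟩
  obtain ⟨β, hβ⟩ : ∃ β, β = ⌊u + h + H / 2⌋₊ := ⟨_, rfl⟩
  have a1 : u + h - H / 2 ≤ α := by rw [hα]; exact Nat.le_ceil _
  have a2 : (α : ℝ) < u + h - H / 2 + 1 := by rw [hα]; exact Nat.ceil_lt_add_one t0
  have b1 : (β : ℝ) ≤ u + h + H / 2 := by rw [hβ]; exact Nat.floor_le (by linarith)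
  have b2 : u + h + H / 2 < β + 1 := by rw [hβ]; exact Nat.lt_floor_add_one _
  have hαβ : α ≤ β + 1 := by
    have : (α : ℝ) < β + 1 + 1 := by linarith
    have h' : α < β + 1 + 1 := by exact_mod_cast this
    omega
  have hLr : ((β + 1 - α : ℕ) : ℝ) = β + 1 - α := by rw [Nat.cast_sub hαβ]; push_cast; ring
  have hLpos : 0 < ((β + 1 - α : ℕ) : ℝ) := by rw [hLr]; linarith
  refine ⟨α, β + 1 - α, ?_, ?_, ?_, ?_⟩
  · have : (α : ℝ) < 3 := by linarith
    have h' : α < 3 := by exact_mod_cast this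
    omega
  · have : 0 < β + 1 - α := by exact_mod_cast hLpos
    omega
  · rw [hLr, abs_le]
    constructor <;> linarith
  · intro f j hj
    rw [← hh] at hj ⊢
    have hjr : (h : ℝ) + 1 ≤ j := by exact_mod_cast hj
    have hx : 0 < (j : ℝ) + u - H / 2 := by linarith
    rw [wsum_eq f hx (by linarith)]
    have e1 : (j : ℝ) + u - H / 2 = (u + h - H / 2) + ((j - h : ℕ) : ℝ) := by
      rw [Nat.cast_sub hj.le]; ring
    have e2 : (j : ℝ) + u + H / 2 = (u + h + H / 2) + ((j - h : ℕ) : ℝ) := by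
      rw [Nat.cast_sub hj.le]; ring
    rw [e1, e2, Nat.ceil_add_natCast t0, Nat.floor_add_natCast (by linarith), ← hα, ← hβ]
    unfold win
    congr 1
    ext n
    simp only [mem_Icc, mem_Ico]
    omega

theorem wsum_ite (f : ℕ → ℝ) {x H B : ℝ} (hx : 0 < x - H / 2) (hH : 0 ≤ H) (hxB : x ≤ B) :
    wsum f x H = ∑ n ∈ range (⌊B + H / 2⌋₊ + 1),
      if x - H / 2 ≤ n ∧ (n : ℝ) ≤ x + H / 2 then f n else 0 := by
  rw [wsum_eq f hx hH, ← Finset.sum_filter]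
  congr 1
  ext n
  simp only [mem_Icc, mem_filter, mem_range]
  rw [Nat.ceil_le, Nat.le_floor_iff (by linarith)]
  constructor
  · intro h
    refine ⟨?_, h⟩
    have : n ≤ ⌊B + H / 2⌋₊ := Nat.le_floor (by linarith [h.2])
    omega
  · intro h; exact h.2

theorem sq_intg (f : ℕ → ℝ) {A B H : ℝ} (hA : H / 2 < A) (hAB : A ≤ B) (hH : 0 ≤ H) :
    IntervalIntegrable (fun x => |wsum f x H - H| ^ 2) volume A B := by
  rw [intervalIntegrable_iff_integrableOn_Icc_of_le hAB]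
  have hmeas : Measurable (fun x : ℝ => |∑ n ∈ range (⌊B + H / 2⌋₊ + 1),
      (if x - H / 2 ≤ n ∧ (n : ℝ) ≤ x + H / 2 then f n else 0) - H| ^ 2) := by
    refine (((Finset.measurable_fun_sum _ fun n _ => ?_).sub_const H).abs).pow_const 2
    refine Measurable.ite ?_ measurable_const measurable_const
    exact (measurableSet_le (measurable_id.sub_const _) measurable_const).inter
      (measurableSet_le measurable_const (measurable_id.add_const _))
  have h1 : IntegrableOn (fun x : ℝ => |∑ n ∈ range (⌊B + H / 2⌋₊ + 1),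
      (if x - H / 2 ≤ n ∧ (n : ℝ) ≤ x + H / 2 then f n else 0) - H| ^ 2) (Set.Icc A B) := by
    refine Measure.integrableOn_of_bounded (M := (∑ n ∈ range (⌊B + H / 2⌋₊ + 1), |f n| + |H|) ^ 2)
      (by simp) hmeas.aestronglyMeasurable (Filter.Eventually.of_forall fun x => ?_)
    rw [Real.norm_of_nonneg (by positivity)]
    refine pow_le_pow_left₀ (abs_nonneg _) ?_ 2
    refine (abs_sub _ _).trans (add_le_add ?_ le_rfl)
    refine (abs_sum_le_sum_abs _ _).trans (Finset.sum_le_sum fun n _ => ?_)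
    split_ifs
    · exact le_rfl
    · simp
  refine h1.congr_fun ?_ measurableSet_Icc
  intro x hx
  simp only
  rw [wsum_ite f (by linarith [hx.1]) hH hx.2]

theorem wsum_bound (f : ℕ → ℝ) {x H B : ℝ} (hx : 0 < x - H / 2) (hH : 1 ≤ H) (hB : 1 ≤ B) {M : ℕ}
    (hM : x + H / 2 < M) (hf : ∀ n < M, |f n| ≤ 2 * B) : |wsum f x H - H| ^ 2 ≤ 25 * B ^ 2 * H ^ 2 := by
  have hc : ((Icc ⌈x - H / 2⌉₊ ⌊x + H / 2⌋₊).card : ℝ) ≤ 2 * H := by
    rw [Nat.card_Icc]
    have h1 : x - H / 2 ≤ ⌈x - H / 2⌉₊ := Nat.le_ceil _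
    have h2 : (⌊x + H / 2⌋₊ : ℝ) ≤ x + H / 2 := Nat.floor_le (by linarith)
    rcases le_or_gt ⌈x - H / 2⌉₊ (⌊x + H / 2⌋₊ + 1) with h | h
    · rw [Nat.cast_sub h]; push_cast; linarith
    · rw [Nat.sub_eq_zero_of_le h.le]; simp; linarith
  have h1 : |wsum f x H| ≤ 4 * B * H := by
    rw [wsum_eq f hx (by linarith)]
    refine (abs_sum_le_sum_abs _ _).trans ?_
    refine (Finset.sum_le_card_nsmul _ _ (2 * B) fun n hn => hf n ?_).trans ?_
    · have h3 := (mem_Icc.1 hn).2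
      have h4 : (n : ℝ) ≤ x + H / 2 := (Nat.le_floor_iff (by linarith)).1 h3
      have : (n : ℝ) < M := by linarith
      exact_mod_cast this
    · rw [nsmul_eq_mul]
      calc ((Icc ⌈x - H / 2⌉₊ ⌊x + H / 2⌋₊).card : ℝ) * (2 * B) ≤ (2 * H) * (2 * B) :=
            mul_le_mul_of_nonneg_right hc (by linarith)
        _ = 4 * B * H := by ring
  have h2 : |wsum f x H - H| ≤ 5 * B * H := by
    refine (abs_sub _ _).trans ?_
    rw [abs_of_nonneg (show 0 ≤ H by linarith)]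
    nlinarith
  calc |wsum f x H - H| ^ 2 ≤ (5 * B * H) ^ 2 := pow_le_pow_left₀ (abs_nonneg _) h2 2
    _ = _ := by ring

theorem int_fibres (F : ℝ → ℝ) {a b : ℕ} (hab : a ≤ b) (hF : IntervalIntegrable F volume a b) :
    (∫ x in (a : ℝ)..b, F x = ∫ u in (0 : ℝ)..1, ∑ j ∈ Ico a b, F (j + u)) ∧
      IntervalIntegrable (fun u => ∑ j ∈ Ico a b, F (j + u)) volume 0 1 := by
  have hk : ∀ j ∈ Ico a b, IntervalIntegrable F volume (j : ℝ) ((j + 1 : ℕ) : ℝ) := by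
    intro j hj
    rw [mem_Ico] at hj
    apply hF.mono_set
    have h1 : (a : ℝ) ≤ j := by exact_mod_cast hj.1
    have h2 : ((j + 1 : ℕ) : ℝ) ≤ b := by exact_mod_cast hj.2
    have h3 : (j : ℝ) ≤ ((j + 1 : ℕ) : ℝ) := by push_cast; linarith
    rw [Set.uIcc_of_le h3, Set.uIcc_of_le (h1.trans (h3.trans h2))]
    exact Set.Icc_subset_Icc h1 h2
  have hk' : ∀ j ∈ Ico a b, IntervalIntegrable (fun u => F (j + u)) volume 0 1 := by
    intro j hj
    have h := (hk j hj).comp_add_left (j : ℝ)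
    have e1 : (j : ℝ) - j = 0 := by ring
    have e2 : ((j + 1 : ℕ) : ℝ) - j = 1 := by push_cast; ring
    rw [e1, e2] at h
    exact h
  constructor
  · rw [intervalIntegral.integral_finsetSum hk']
    rw [← intervalIntegral.sum_integral_adjacent_intervals_Ico (a := fun k : ℕ => (k : ℝ)) hab
      (fun k hk0 => hk k (mem_Ico.2 hk0))]
    refine Finset.sum_congr rfl fun j _ => ?_
    rw [intervalIntegral.integral_comp_add_left]
    congr 1
    · ring
    · push_cast; ring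
  · have h := IntervalIntegrable.sum (Ico a b) hk'
    refine h.congr ?_
    intro u _
    simp

/-- mean square over `[X, 2X]` -/
noncomputable def msq (f : ℕ → ℝ) (X H : ℝ) : ℝ := (1 / X) * ∫ x in X..(2 * X), |wsum f x H - H| ^ 2

/-- mean of `v` over `(X, 2X]` -/
noncomputable def VV (v : ℕ → ℝ) (X : ℝ) : ℝ := (1 / X) * ∑ n ∈ Ioc ⌊X⌋₊ ⌊2 * X⌋₊, v n

theorem law_of_good {N : ℕ} {Lm δ b y : ℝ} {Y m v : ℕ → ℝ} {e : ℕ → ℕ → ℝ} (G : Good N Lm δ b y Y m e)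
    (hδ : 0 < δ) (hδ1 : δ ≤ 1) (hb : 1 ≤ b) (hby : b ≤ y) (hy6 : 6 ≤ δ ^ 2 * y)
    (hY : ∀ n < 3 * N, |Y n| ≤ b) (hm : ∀ n < 3 * N, |m n| ≤ b)
    (hv0 : ∀ n < 3 * N, 0 ≤ v n) (hv : ∀ n < 3 * N, v n ≤ b ^ 2)
    (hLy : ∀ L : ℕ, (L : ℝ) ≤ Lm → (L : ℝ) * y ^ 16 ≤ N)
    {τ : ℝ} (hτ : ∀ L s : ℕ, 1 ≤ L → (L : ℝ) ≤ Lm → s + L ≤ 3 * N → |win v s L - e s L| ≤ τ) (hτ0 : 0 ≤ τ)
    (hτδ : τ ≤ δ) {X H : ℝ} (hX : 1 ≤ X) (hN : N = ⌈X⌉₊) (hH : 1 ≤ H) (hHy : y ^ 4 ≤ H) (hHL : H + 1 ≤ Lm)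
    (hHX : H + 4 ≤ X) :
    |msq (fun n => m n + Y n) X H - msq m X H - H * VV v X| ≤ 122 * δ * (H + msq m X H) := by
  have hNX : X ≤ N := by rw [hN]; exact Nat.le_ceil _
  have hNX' : (N : ℝ) < X + 1 := by rw [hN]; exact Nat.ceil_lt_add_one (by linarith)
  have hX0 : 0 < X := by linarith
  have hN0 : (0 : ℝ) < N := by linarith
  have hN1 : 1 ≤ N := by
    have : 0 < N := by exact_mod_cast hN0
    omega
  obtain ⟨c, hc⟩ : ∃ c, c = ⌊2 * X⌋₊ := ⟨_, rfl⟩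
  have hc1 : (c : ℝ) ≤ 2 * X := by rw [hc]; exact Nat.floor_le (by linarith)
  have hc2 : 2 * X < c + 1 := by rw [hc]; exact Nat.lt_floor_add_one _
  obtain ⟨d, hd⟩ : ∃ d, d = ⌊X⌋₊ := ⟨_, rfl⟩
  have hd1 : (d : ℝ) ≤ X := by rw [hd]; exact Nat.floor_le (by linarith)
  have hd2 : X < d + 1 := by rw [hd]; exact Nat.lt_floor_add_one _
  have hNc : N ≤ c := by
    have : (N : ℝ) < c + 1 := by linarith
    have h' : N < c + 1 := by exact_mod_cast this
    omega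
  have hc2N : c ≤ 2 * N := by
    have : (c : ℝ) ≤ 2 * N := by linarith
    exact_mod_cast this
  obtain ⟨h, hh⟩ : ∃ h, h = ⌈H / 2⌉₊ := ⟨_, rfl⟩
  have hh1 : H / 2 ≤ h := by rw [hh]; exact Nat.le_ceil _
  have hh2 : (h : ℝ) < H / 2 + 1 := by rw [hh]; exact Nat.ceil_lt_add_one (by linarith)
  have hhN : h < N := by
    have : (h : ℝ) < N := by linarith
    exact_mod_cast this
  have hy0 : 0 < y := by linarith
  have hy1 : 1 ≤ y := by linarith
  have hy : 6 ≤ y := by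
    have : δ ^ 2 ≤ 1 := pow_le_one₀ hδ.le hδ1
    nlinarith
  have hδy : 1 ≤ δ * y := by
    have : δ ^ 2 * y ≤ δ * y := by
      refine mul_le_mul_of_nonneg_right ?_ hy0.le
      nlinarith
    linarith
  obtain ⟨V, hV⟩ : ∃ V, V = ∑ n ∈ Ico (d + 1) (c + 1), v n := ⟨_, rfl⟩
  have hVV : VV v X = (1 / X) * V := by
    unfold VV
    rw [hV, ← hd, ← hc]
    have : Ioc d c = Ico (d + 1) (c + 1) := by
      ext n
      simp only [mem_Ioc, mem_Ico]
      omega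
    rw [this]
  -- integrability
  have hint : ∀ (f : ℕ → ℝ) (A B : ℝ), X ≤ A → A ≤ B →
      IntervalIntegrable (fun x => |wsum f x H - H| ^ 2) volume A B := fun f A B hA hAB =>
    sq_intg f (by linarith) hAB (by linarith)
  have hsplit : ∀ f : ℕ → ℝ, ∫ x in X..(2 * X), |wsum f x H - H| ^ 2 =
      (∫ x in X..(N : ℝ), |wsum f x H - H| ^ 2) + (∫ x in (N : ℝ)..c, |wsum f x H - H| ^ 2) +
      ∫ x in (c : ℝ)..(2 * X), |wsum f x H - H| ^ 2 := by
    intro f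
    have hNcr : (N : ℝ) ≤ c := by exact_mod_cast hNc
    rw [intervalIntegral.integral_add_adjacent_intervals (hint f X N le_rfl hNX) (hint f N c hNX hNcr),
      intervalIntegral.integral_add_adjacent_intervals (hint f X c le_rfl (hNX.trans hNcr))
        (hint f c (2 * X) (hNX.trans hNcr) hc1)]
  -- ends
  have hend : ∀ f : ℕ → ℝ, (∀ n < 3 * N, |f n| ≤ 2 * b) → ∀ A B : ℝ, X ≤ A → A ≤ B → B ≤ 2 * X → B - A ≤ 1 →
      |∫ x in A..B, |wsum f x H - H| ^ 2| ≤ 25 * b ^ 2 * H ^ 2 := by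
    intro f hf A B hA hAB hB hBA
    have h1 := intervalIntegral.norm_integral_le_of_norm_le_const (a := A) (b := B)
      (f := fun x => |wsum f x H - H| ^ 2) (C := 25 * b ^ 2 * H ^ 2) (fun x hx => by
        rw [Set.uIoc_of_le hAB] at hx
        rw [Real.norm_of_nonneg (by positivity)]
        refine wsum_bound f (by linarith [hx.1]) hH hb (M := 3 * N) ?_ hf
        push_cast
        linarith [hx.2])
    rw [Real.norm_eq_abs] at h1
    refine h1.trans ?_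
    rw [abs_of_nonneg (by linarith)]
    calc 25 * b ^ 2 * H ^ 2 * (B - A) ≤ 25 * b ^ 2 * H ^ 2 * 1 := mul_le_mul_of_nonneg_left hBA (by positivity)
      _ = _ := by ring
  have hf2 : ∀ n < 3 * N, |m n + Y n| ≤ 2 * b := fun n hn => by
    have := abs_add_le (m n) (Y n)
    linarith [hm n hn, hY n hn]
  have hm2 : ∀ n < 3 * N, |m n| ≤ 2 * b := fun n hn => by linarith [hm n hn]
  -- the fibres
  have hfib : ∀ f : ℕ → ℝ, (∫ x in (N : ℝ)..c, |wsum f x H - H| ^ 2 =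
      ∫ u in (0 : ℝ)..1, ∑ j ∈ Ico N c, |wsum f (j + u) H - H| ^ 2) ∧
      IntervalIntegrable (fun u : ℝ => ∑ j ∈ Ico N c, |wsum f (j + u) H - H| ^ 2) volume 0 1 := fun f =>
    int_fibres (fun x => |wsum f x H - H| ^ 2) hNc (hint f N c hNX (by exact_mod_cast hNc))
  have hpt : ∀ u : ℝ, 0 ≤ u → u < 1 →
      |∑ j ∈ Ico N c, |wsum (fun n => m n + Y n) (j + u) H - H| ^ 2 - ∑ j ∈ Ico N c, |wsum m (j + u) H - H| ^ 2 -
        H * V| ≤ 60 * δ * (N * H + ∑ j ∈ Ico N c, |wsum m (j + u) H - H| ^ 2) := by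
    intro u hu0 hu1
    obtain ⟨α, L, hα, hL1, hLH, hw⟩ := fibre H u hH hu0 hu1
    rw [← hh] at hw
    have hL : (L : ℝ) ≤ Lm := by linarith [(abs_le.1 hLH).2]
    have hre : ∀ f : ℕ → ℝ, ∑ j ∈ Ico N c, |wsum f (j + u) H - H| ^ 2 =
        ∑ s ∈ Ico (N - h + α) (N - h + α + (c - N)), (win f s L - H) ^ 2 := by
      intro f
      have e1 : ∑ j ∈ Ico N c, |wsum f (j + u) H - H| ^ 2 =
          ∑ j ∈ Ico N c, (win f (j - h + α) L - H) ^ 2 := by
        refine Finset.sum_congr rfl fun j hj => ?_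
        rw [hw f j (lt_of_lt_of_le hhN (mem_Ico.1 hj).1), sq_abs]
      rw [e1]
      refine Finset.sum_nbij' (fun j => j - h + α) (fun s => s - α + h) ?_ ?_ ?_ ?_ ?_
      · intro j hj; rw [mem_Ico] at hj ⊢; omega
      · intro s hs; rw [mem_Ico] at hs ⊢; omega
      · intro j hj; rw [mem_Ico] at hj; omega
      · intro s hs; rw [mem_Ico] at hs; omega
      · intro j _; rfl
    rw [hre, hre, hV]
    have hNh : ((N - h : ℕ) : ℝ) = N - h := Nat.cast_sub hhN.le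
    have hαr : (α : ℝ) ≤ 2 := by exact_mod_cast hα
    have hα0 : (0 : ℝ) ≤ α := Nat.cast_nonneg α
    have hcN : ((c - N : ℕ) : ℝ) = c - N := Nat.cast_sub hNc
    have hsz : N - h + α + (c - N) + L ≤ 3 * N := by
      have : ((N - h + α + (c - N) + L : ℕ) : ℝ) ≤ ((3 * N : ℕ) : ℝ) := by
        push_cast
        rw [hNh, hcN]
        linarith [(abs_le.1 hLH).2]
      exact_mod_cast this
    refine D3 G hδ hδ1 hN1 hb hby hy6 L hL1 hL (hLy L hL) hH hLH hHy hv0 hv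
      (fun s hs => hτ L s hL1 hL hs) hτ0 hτδ (N - h + α) (c - N) (by omega) hsz (d + 1) (c + 1) ?_ (by omega) ?_ ?_ ?_
    · have : (d : ℝ) < c + 1 := by linarith
      have h' : d < c + 1 := by exact_mod_cast this
      omega
    · push_cast; linarith
    · push_cast
      rw [hNh, abs_le]
      constructor <;> linarith
    · push_cast
      rw [hNh, hcN, abs_le]
      constructor <;> linarith
  have hmid : |(∫ x in (N : ℝ)..c, |wsum (fun n => m n + Y n) x H - H| ^ 2) -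
      (∫ x in (N : ℝ)..c, |wsum m x H - H| ^ 2) - H * V| ≤
      60 * δ * (N * H + ∫ x in (N : ℝ)..c, |wsum m x H - H| ^ 2) := by
    obtain ⟨e1, i1⟩ := hfib (fun n => m n + Y n)
    obtain ⟨e2, i2⟩ := hfib m
    have e3 : (∫ x in (N : ℝ)..c, |wsum (fun n => m n + Y n) x H - H| ^ 2) -
        (∫ x in (N : ℝ)..c, |wsum m x H - H| ^ 2) - H * V =
        ∫ u in (0 : ℝ)..1, (∑ j ∈ Ico N c, |wsum (fun n => m n + Y n) (j + u) H - H| ^ 2 -
          ∑ j ∈ Ico N c, |wsum m (j + u) H - H| ^ 2 - H * V) := by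
      rw [intervalIntegral.integral_sub (i1.sub i2) (by simp), intervalIntegral.integral_sub i1 i2, e1, e2]
      simp
    have e4 : 60 * δ * (N * H + ∫ x in (N : ℝ)..c, |wsum m x H - H| ^ 2) =
        ∫ u in (0 : ℝ)..1, 60 * δ * (N * H + ∑ j ∈ Ico N c, |wsum m (j + u) H - H| ^ 2) := by
      rw [intervalIntegral.integral_const_mul, intervalIntegral.integral_add (by simp) i2, e2]
      simp
    rw [e3, e4, ← Real.norm_eq_abs]
    apply intervalIntegral.norm_integral_le_of_norm_le (by norm_num)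
    · have hne : ∀ᵐ u : ℝ, u ≠ 1 := by
        have := (Set.countable_singleton (1 : ℝ)).ae_notMem volume
        filter_upwards [this] with u hu
        exact fun h => hu (by rw [h]; rfl)
      filter_upwards [hne] with u hu1 hu
      rw [Real.norm_eq_abs]
      exact hpt u hu.1.le (lt_of_le_of_ne hu.2 hu1)
    · exact ((by simp : IntervalIntegrable (fun _ : ℝ => (N : ℝ) * H) volume 0 1).add i2).const_mul _
  -- collect
  have hNcr : (N : ℝ) ≤ c := by exact_mod_cast hNc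
  have g1 := hend _ hf2 X N le_rfl hNX (by linarith) (by linarith)
  have g2 := hend _ hf2 c (2 * X) (by linarith) hc1 le_rfl (by linarith)
  have g3 := hend _ hm2 X N le_rfl hNX (by linarith) (by linarith)
  have g4 := hend _ hm2 c (2 * X) (by linarith) hc1 le_rfl (by linarith)
  have n3 : 0 ≤ ∫ x in X..(N : ℝ), |wsum m x H - H| ^ 2 :=
    intervalIntegral.integral_nonneg hNX fun x _ => by positivity
  have n4 : 0 ≤ ∫ x in (c : ℝ)..(2 * X), |wsum m x H - H| ^ 2 :=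
    intervalIntegral.integral_nonneg hc1 fun x _ => by positivity
  have n6 : 0 ≤ ∫ x in (N : ℝ)..c, |wsum m x H - H| ^ 2 :=
    intervalIntegral.integral_nonneg hNcr fun x _ => by positivity
  -- `100 b² H² ≤ δ N H`
  obtain ⟨L0, hL0⟩ : ∃ L0, L0 = ⌊H⌋₊ := ⟨_, rfl⟩
  have l1 : (L0 : ℝ) ≤ H := by rw [hL0]; exact Nat.floor_le (by linarith)
  have l2 : H < L0 + 1 := by rw [hL0]; exact Nat.lt_floor_add_one _
  have l3 : (1 : ℝ) ≤ L0 := by
    have : 1 ≤ L0 := by rw [hL0]; exact Nat.le_floor (by simpa using hH)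
    exact_mod_cast this
  have l4 := hLy L0 (by linarith)
  have hb2 : b ^ 2 ≤ y ^ 2 := pow_le_pow_left₀ (by linarith) hby 2
  have l5 : H * y ^ 16 ≤ 2 * N := by
    have : H ≤ 2 * L0 := by linarith
    calc H * y ^ 16 ≤ (2 * L0) * y ^ 16 := mul_le_mul_of_nonneg_right this (by positivity)
      _ = 2 * (L0 * y ^ 16) := by ring
      _ ≤ 2 * N := by linarith
  have l6 : 100 * (b ^ 2 * H ^ 2) ≤ δ * (N * H) := by
    have t1 : 100 * (b ^ 2 * H) ≤ δ * N := by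
      have t3 : (200 : ℝ) * y ^ 3 ≤ y ^ 16 := by
        have : (6 : ℝ) ^ 13 ≤ y ^ 13 := pow_le_pow_left₀ (by norm_num) hy 13
        calc (200 : ℝ) * y ^ 3 ≤ y ^ 13 * y ^ 3 := by
              refine mul_le_mul_of_nonneg_right ?_ (by positivity)
              refine le_trans ?_ this
              norm_num
          _ = y ^ 16 := by ring
      have t4 : 100 * (b ^ 2 * H) ≤ 100 * (y ^ 2 * H) :=
        mul_le_mul_of_nonneg_left (mul_le_mul_of_nonneg_right hb2 (by linarith)) (by norm_num)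
      have t5 : 100 * (y ^ 2 * H) ≤ (δ * y) * (100 * (y ^ 2 * H)) :=
        le_mul_of_one_le_left (by positivity) hδy
      have t6 : (δ * y) * (100 * (y ^ 2 * H)) = δ * (H * (200 * y ^ 3)) / 2 := by ring
      have t7 : δ * (H * (200 * y ^ 3)) ≤ δ * (2 * N) :=
        mul_le_mul_of_nonneg_left ((mul_le_mul_of_nonneg_left t3 (by linarith)).trans l5) hδ.le
      linarith
    calc 100 * (b ^ 2 * H ^ 2) = (100 * (b ^ 2 * H)) * H := by ring
      _ ≤ (δ * N) * H := mul_le_mul_of_nonneg_right t1 (by linarith)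
      _ = _ := by ring
  unfold msq
  rw [hVV, hsplit (fun n => m n + Y n), hsplit m]
  have A1 := abs_le.1 g1
  have A2 := abs_le.1 g2
  have A3 := abs_le.1 g3
  have A4 := abs_le.1 g4
  have A5 := abs_le.1 hmid
  generalize (∫ x in X..(N : ℝ), |wsum (fun n => m n + Y n) x H - H| ^ 2) = I1 at *
  generalize (∫ x in (c : ℝ)..(2 * X), |wsum (fun n => m n + Y n) x H - H| ^ 2) = I2 at *
  generalize (∫ x in (N : ℝ)..c, |wsum (fun n => m n + Y n) x H - H| ^ 2) = I3 at *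
  generalize (∫ x in X..(N : ℝ), |wsum m x H - H| ^ 2) = I4 at *
  generalize (∫ x in (c : ℝ)..(2 * X), |wsum m x H - H| ^ 2) = I5 at *
  generalize (∫ x in (N : ℝ)..c, |wsum m x H - H| ^ 2) = I6 at *
  have hkey : |(I1 + I3 + I2) - (I4 + I6 + I5) - H * V| ≤ X * (122 * δ * (H + 1 / X * (I4 + I6 + I5))) := by
    have e1 : X * (122 * δ * (H + 1 / X * (I4 + I6 + I5))) = 122 * (δ * (X * H)) + 122 * (δ * (I4 + I6 + I5)) := by
      field_simp
    have e2 : 60 * δ * (N * H + I6) = 60 * (δ * (N * H)) + 60 * (δ * I6) := by ring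
    have e3 : δ * (N * H) ≤ 2 * (δ * (X * H)) := by
      have : (N : ℝ) ≤ 2 * X := by linarith
      calc δ * (N * H) ≤ δ * (2 * X * H) :=
            mul_le_mul_of_nonneg_left (mul_le_mul_of_nonneg_right this (by linarith)) hδ.le
        _ = _ := by ring
    have e4 : 0 ≤ δ * I4 := mul_nonneg hδ.le n3
    have e5 : 0 ≤ δ * I5 := mul_nonneg hδ.le n4
    rw [e2] at A5
    have e8 : 0 ≤ δ * I6 := mul_nonneg hδ.le n6
    have e6 : 25 * b ^ 2 * H ^ 2 = 25 * (b ^ 2 * H ^ 2) := by ring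
    rw [e6] at A1 A2 A3 A4
    have e9 : δ * (I4 + I6 + I5) = δ * I4 + δ * I6 + δ * I5 := by ring
    rw [e1, e9, abs_le]
    constructor <;> linarith [A1.1, A1.2, A2.1, A2.2, A3.1, A3.2, A4.1, A4.2, A5.1, A5.2]
  have e10 : 1 / X * (I1 + I3 + I2) - 1 / X * (I4 + I6 + I5) - H * (1 / X * V) =
      (1 / X) * ((I1 + I3 + I2) - (I4 + I6 + I5) - H * V) := by ring
  rw [e10, abs_mul, abs_of_pos (by positivity : 0 < 1 / X)]
  calc 1 / X * |(I1 + I3 + I2) - (I4 + I6 + I5) - H * V| ≤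
      1 / X * (X * (122 * δ * (H + 1 / X * (I4 + I6 + I5)))) := mul_le_mul_of_nonneg_left hkey (by positivity)
    _ = 122 * δ * (H + 1 / X * (I4 + I6 + I5)) := by field_simp

end Pool.Agent.D0H68.RV
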