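import Pool.Agent.D0H68.RV.Int

set_option autoImplicit false

open Filter

namespace Pool.Agent.D0H68.RV

/-- the prediction of Q1 -/
noncomputable def pr (X H : ℝ) : ℝ :=
  H * (Real.log X - Real.log H - (Real.eulerMascheroniConstant + Real.log (2 * Real.pi)))

/-- Q1 for the weights `f`, with the mean square over `[X, 2X]` -/
def Law (f : ℕ → ℝ) : Prop :=
  ∀ ε : ℝ, 0 < ε → ∀ δ : ℝ, 0 < δ → ∀ᶠ X : ℝ in atTop, ∀ H : ℝ, X ^ ε < H → H < X ^ (1 - ε) →
    |msq f X H - pr X H| ≤ δ * pr X H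

theorem msq_nonneg (f : ℕ → ℝ) {X : ℝ} (hX : 0 < X) (H : ℝ) : 0 ≤ msq f X H := by
  unfold msq
  apply mul_nonneg (by positivity)
  exact intervalIntegral.integral_nonneg (by linarith) fun x _ => by positivity

theorem VV_nonneg {v : ℕ → ℝ} (hv : ∀ n, 0 ≤ v n) {X : ℝ} (hX : 0 < X) : 0 ≤ VV v X := by
  unfold VV
  exact mul_nonneg (by positivity) (Finset.sum_nonneg fun n _ => hv n)

theorem c0_pos : 0 < Real.eulerMascheroniConstant + Real.log (2 * Real.pi) := by
  have h1 := Real.one_half_lt_eulerMascheroniConstant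
  have h2 : 0 < Real.log (2 * Real.pi) := Real.log_pos (by nlinarith [Real.pi_gt_three])
  linarith

theorem pr_bounds (ε : ℝ) (hε : 0 < ε) : ∀ᶠ X : ℝ in atTop, ∀ H : ℝ, X ^ ε ≤ H → H ≤ X ^ (1 - ε) →
    1 ≤ H ∧ (ε / 2) * (H * Real.log X) ≤ pr X H ∧ pr X H ≤ H * (Real.log X - Real.log H) ∧ H ≤ pr X H := by
  obtain ⟨c, hc⟩ : ∃ c, c = Real.eulerMascheroniConstant + Real.log (2 * Real.pi) := ⟨_, rfl⟩
  have hc0 : 0 < c := by rw [hc]; exact c0_pos
  filter_upwards [eventually_ge_atTop 1, Real.tendsto_log_atTop.eventually (eventually_ge_atTop (2 * c / ε)),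
    Real.tendsto_log_atTop.eventually (eventually_ge_atTop (2 / ε))] with X hX hl hl2 H h1 h2
  have hX0 : 0 < X := by linarith
  have hH : 1 ≤ H := (Real.one_le_rpow hX hε.le).trans h1
  have hlH : Real.log H ≤ (1 - ε) * Real.log X := by
    have := Real.log_le_log (by linarith) h2
    rwa [Real.log_rpow hX0] at this
  rw [div_le_iff₀ hε] at hl hl2
  have h3 : (ε / 2) * (H * Real.log X) ≤ pr X H := by
    unfold pr
    rw [← hc]
    have : (ε / 2) * Real.log X ≤ Real.log X - Real.log H - c := by nlinarith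
    calc (ε / 2) * (H * Real.log X) = H * ((ε / 2) * Real.log X) := by ring
      _ ≤ _ := mul_le_mul_of_nonneg_left this (by linarith)
  refine ⟨hH, h3, ?_, ?_⟩
  · unfold pr
    rw [← hc]
    exact mul_le_mul_of_nonneg_left (by linarith) (by linarith)
  · refine le_trans ?_ h3
    nlinarith

/-- the exact law, for a realization `f` with mean `m` and variances `v` -/
def Exact (f m v : ℕ → ℝ) : Prop :=
  ∀ ε : ℝ, 0 < ε → ∀ᶠ X : ℝ in atTop, ∀ H : ℝ, X ^ ε ≤ H → H ≤ X ^ (1 - ε) →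
    |msq f X H - (H * VV v X + msq m X H)| ≤ ε * (H + msq m X H)

theorem range_mono {ε ε' X H : ℝ} (hX : 1 ≤ X) (h : ε' ≤ ε) (h1 : X ^ ε ≤ H) (h2 : H ≤ X ^ (1 - ε)) :
    X ^ ε' ≤ H ∧ H ≤ X ^ (1 - ε') :=
  ⟨(Real.rpow_le_rpow_of_exponent_le hX h).trans h1, h2.trans (Real.rpow_le_rpow_of_exponent_le hX (by linarith))⟩

/-- lower bound from the exact law -/
theorem lower {f m v : ℕ → ℝ} (hex : Exact f m v) {c : ℝ}
    (hV : ∀ ε : ℝ, 0 < ε → ∀ᶠ X : ℝ in atTop, (c - ε) * Real.log X ≤ VV v X) :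
    ∀ ε : ℝ, 0 < ε → ∀ᶠ X : ℝ in atTop, ∀ H : ℝ, X ^ ε ≤ H → H ≤ X ^ (1 - ε) →
      (c - ε) * (H * Real.log X) ≤ msq f X H := by
  intro ε hε
  obtain ⟨ε1, he1⟩ : ∃ ε1, ε1 = min ε (1 / 2) := ⟨_, rfl⟩
  have he0 : 0 < ε1 := by rw [he1]; exact lt_min hε (by norm_num)
  have hee : ε1 ≤ ε := by rw [he1]; exact min_le_left _ _
  have heh : ε1 ≤ 1 / 2 := by rw [he1]; exact min_le_right _ _
  filter_upwards [hex ε1 he0, hV (ε / 2) (by linarith), eventually_ge_atTop 1,
    Real.tendsto_log_atTop.eventually (eventually_ge_atTop (2 / ε))] with X h1 h2 hX hl H hH1 hH2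
  obtain ⟨r1, r2⟩ := range_mono hX hee hH1 hH2
  have h3 := (abs_le.1 (h1 H r1 r2)).1
  have hq := msq_nonneg m (show 0 < X by linarith) H
  have hH : 1 ≤ H := (Real.one_le_rpow hX hε.le).trans hH1
  rw [div_le_iff₀ hε] at hl
  have h4 : (c - ε / 2) * (H * Real.log X) ≤ H * VV v X := by
    calc (c - ε / 2) * (H * Real.log X) = H * ((c - ε / 2) * Real.log X) := by ring
      _ ≤ _ := mul_le_mul_of_nonneg_left h2 (by linarith)
  have h5 : ε1 * H ≤ (ε / 2) * (H * Real.log X) := by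
    calc ε1 * H ≤ 1 * H := mul_le_mul_of_nonneg_right (by linarith) (by linarith)
      _ ≤ (Real.log X * ε / 2) * H := mul_le_mul_of_nonneg_right (by linarith) (by linarith)
      _ = _ := by ring
  have h6 : ε1 * msq m X H ≤ 1 * msq m X H := mul_le_mul_of_nonneg_right (by linarith) hq
  nlinarith

/-- the law forces small variances -/
theorem law_V {f m v : ℕ → ℝ} (hex : Exact f m v) (hL : Law f) :
    ∀ δ : ℝ, 0 < δ → ∀ᶠ X : ℝ in atTop, VV v X ≤ δ * Real.log X := by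
  intro δ hδ
  obtain ⟨η, hη⟩ : ∃ η, η = min (δ / 3) (1 / 2) := ⟨_, rfl⟩
  have hη0 : 0 < η := by rw [hη]; exact lt_min (by linarith) (by norm_num)
  have hηδ : η ≤ δ / 3 := by rw [hη]; exact min_le_left _ _
  have hη2 : η ≤ 1 / 2 := by rw [hη]; exact min_le_right _ _
  filter_upwards [hex (η / 2) (by linarith), hL (η / 2) (by linarith) 1 one_pos,
    pr_bounds (η / 2) (by linarith), eventually_gt_atTop 1,
    Real.tendsto_log_atTop.eventually (eventually_ge_atTop 1)] with X h1 h2 h3 hX hl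
  have hX0 : 0 < X := by linarith
  obtain ⟨H, hH⟩ : ∃ H, H = X ^ (1 - η) := ⟨_, rfl⟩
  have r1 : X ^ (η / 2) < H := by rw [hH]; exact Real.rpow_lt_rpow_of_exponent_lt hX (by linarith)
  have r2 : H < X ^ (1 - η / 2) := by rw [hH]; exact Real.rpow_lt_rpow_of_exponent_lt hX (by linarith)
  obtain ⟨a1, a2, a3, a4⟩ := h3 H r1.le r2.le
  have b1 := (abs_le.1 (h1 H r1.le r2.le)).1
  have b2 := (abs_le.1 (h2 H r1 r2)).2
  have hq := msq_nonneg m hX0 H
  have hlH : Real.log H = (1 - η) * Real.log X := by rw [hH, Real.log_rpow hX0]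
  have hH0 : 0 < H := by linarith
  have e1 : H * VV v X ≤ H * (3 * η * Real.log X) := by
    have c1 : pr X H ≤ H * (η * Real.log X) := by
      refine a3.trans (le_of_eq ?_)
      rw [hlH]; ring
    have c2 : (η / 2) * msq m X H ≤ 1 * msq m X H := mul_le_mul_of_nonneg_right (by linarith) hq
    have c3 : (η / 2) * H ≤ H * (η * Real.log X) := by
      calc (η / 2) * H ≤ η * H := mul_le_mul_of_nonneg_right (by linarith) hH0.le
        _ = H * (η * 1) := by ring
        _ ≤ H * (η * Real.log X) := mul_le_mul_of_nonneg_left (mul_le_mul_of_nonneg_left hl hη0.le) hH0.le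
    have c4 : H * (3 * η * Real.log X) = 3 * (H * (η * Real.log X)) := by ring
    rw [c4]
    nlinarith
  have e2 := le_of_mul_le_mul_left e1 hH0
  refine e2.trans ?_
  exact mul_le_mul_of_nonneg_right (by linarith) (by linarith)

theorem law_m {f m v : ℕ → ℝ} (hv : ∀ n, 0 ≤ v n) (hex : Exact f m v)
    (hV : ∀ δ : ℝ, 0 < δ → ∀ᶠ X : ℝ in atTop, VV v X ≤ δ * Real.log X) : Law f ↔ Law m := by
  have key : ∀ ε : ℝ, 0 < ε → ∀ δ : ℝ, 0 < δ → δ ≤ 1 → ∀ᶠ X : ℝ in atTop, ∀ H : ℝ, X ^ ε < H → H < X ^ (1 - ε) →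
      H ≤ pr X H ∧ 0 ≤ H * VV v X ∧ H * VV v X ≤ δ / 8 * pr X H ∧ 0 ≤ msq m X H ∧
      |msq f X H - (H * VV v X + msq m X H)| ≤ δ / 32 * (H + msq m X H) := by
    intro ε hε δ hδ hδ1
    obtain ⟨ε1, he1⟩ : ∃ ε1, ε1 = min ε (δ / 32) := ⟨_, rfl⟩
    have he0 : 0 < ε1 := by rw [he1]; exact lt_min hε (by linarith)
    have hee : ε1 ≤ ε := by rw [he1]; exact min_le_left _ _
    have heh : ε1 ≤ δ / 32 := by rw [he1]; exact min_le_right _ _
    filter_upwards [hex ε1 he0, hV (ε * δ / 16) (by positivity), eventually_ge_atTop 1, pr_bounds ε hε]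
      with X h1 h2 hX h3 H hH1 hH2
    obtain ⟨r1, r2⟩ := range_mono hX hee hH1.le hH2.le
    obtain ⟨a1, a2, a3, a4⟩ := h3 H hH1.le hH2.le
    have hq := msq_nonneg m (show 0 < X by linarith) H
    have hVn := VV_nonneg hv (show 0 < X by linarith)
    refine ⟨a4, mul_nonneg (by linarith) hVn, ?_, hq, ?_⟩
    · calc H * VV v X ≤ H * (ε * δ / 16 * Real.log X) := mul_le_mul_of_nonneg_left h2 (by linarith)
        _ = δ / 8 * ((ε / 2) * (H * Real.log X)) := by ring
        _ ≤ δ / 8 * pr X H := mul_le_mul_of_nonneg_left a2 (by linarith)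
    · refine (h1 H r1 r2).trans ?_
      exact mul_le_mul_of_nonneg_right heh (by linarith)
  constructor
  · intro hL ε hε δ hδ
    obtain ⟨d, hd⟩ : ∃ d, d = min δ 1 := ⟨_, rfl⟩
    have hd0 : 0 < d := by rw [hd]; exact lt_min hδ one_pos
    have hd1 : d ≤ 1 := by rw [hd]; exact min_le_right _ _
    have hdδ : d ≤ δ := by rw [hd]; exact min_le_left _ _
    filter_upwards [key ε hε d hd0 hd1, hL ε hε (d / 8) (by linarith)] with X h1 h2 H r1 r2
    obtain ⟨a1, a2, a3, a4, a5⟩ := h1 H r1 r2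
    have b1 := abs_le.1 (h2 H r1 r2)
    have b2 := abs_le.1 a5
    have hH0 : 0 ≤ pr X H := by
      by_contra hneg
      have : d / 8 * pr X H < 0 := mul_neg_of_pos_of_neg (by linarith) (not_le.1 hneg)
      linarith
    have hp : msq f X H ≤ 2 * pr X H := by nlinarith [b1.2]
    have hdH : d / 32 * H ≤ 1 / 32 * pr X H := by
      calc d / 32 * H ≤ d / 32 * pr X H := mul_le_mul_of_nonneg_left a1 (by linarith)
        _ ≤ 1 / 32 * pr X H := mul_le_mul_of_nonneg_right (by linarith) hH0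
    have hdq : d / 32 * msq m X H ≤ 1 / 32 * msq m X H := mul_le_mul_of_nonneg_right (by linarith) a4
    have hq : msq m X H ≤ 6 * pr X H := by nlinarith [b2.1]
    have hdH' : d / 32 * H ≤ d / 32 * pr X H := mul_le_mul_of_nonneg_left a1 (by linarith)
    have hdq' : d / 32 * msq m X H ≤ d / 32 * (6 * pr X H) := mul_le_mul_of_nonneg_left hq (by linarith)
    have hfin : d * pr X H ≤ δ * pr X H := mul_le_mul_of_nonneg_right hdδ hH0
    have hdp : 0 ≤ d * pr X H := mul_nonneg hd0.le hH0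
    rw [abs_le]
    constructor <;> nlinarith [b1.1, b1.2, b2.1, b2.2]
  · intro hL ε hε δ hδ
    obtain ⟨d, hd⟩ : ∃ d, d = min δ 1 := ⟨_, rfl⟩
    have hd0 : 0 < d := by rw [hd]; exact lt_min hδ one_pos
    have hd1 : d ≤ 1 := by rw [hd]; exact min_le_right _ _
    have hdδ : d ≤ δ := by rw [hd]; exact min_le_left _ _
    filter_upwards [key ε hε d hd0 hd1, hL ε hε (d / 8) (by linarith)] with X h1 h2 H r1 r2
    obtain ⟨a1, a2, a3, a4, a5⟩ := h1 H r1 r2
    have b1 := abs_le.1 (h2 H r1 r2)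
    have b2 := abs_le.1 a5
    have hH0 : 0 ≤ pr X H := by
      by_contra hneg
      have : d / 8 * pr X H < 0 := mul_neg_of_pos_of_neg (by linarith) (not_le.1 hneg)
      linarith
    have hq : msq m X H ≤ 2 * pr X H := by nlinarith [b1.2]
    have hdH' : d / 32 * H ≤ d / 32 * pr X H := mul_le_mul_of_nonneg_left a1 (by linarith)
    have hdq' : d / 32 * msq m X H ≤ d / 32 * (2 * pr X H) := mul_le_mul_of_nonneg_left hq (by linarith)
    have hfin : d * pr X H ≤ δ * pr X H := mul_le_mul_of_nonneg_right hdδ hH0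
    have hdp : 0 ≤ d * pr X H := mul_nonneg hd0.le hH0
    rw [abs_le]
    constructor <;> nlinarith [b1.1, b1.2, b2.1, b2.2]

theorem law_iff {f m v : ℕ → ℝ} (hv : ∀ n, 0 ≤ v n) (hex : Exact f m v) :
    Law f ↔ Law m ∧ ∀ δ : ℝ, 0 < δ → ∀ᶠ X : ℝ in atTop, VV v X ≤ δ * Real.log X :=
  ⟨fun h => ⟨(law_m hv hex (law_V hex h)).1 h, law_V hex h⟩, fun h => (law_m hv hex h.2).2 h.1⟩

theorem not_law {f m v : ℕ → ℝ} (hex : Exact f m v) {c : ℝ} (hc : 0 < c)
    (hV : ∀ ε : ℝ, 0 < ε → ∀ᶠ X : ℝ in atTop, (c - ε) * Real.log X ≤ VV v X) : ¬ Law f := by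
  intro hL
  have h1 := law_V hex hL (c / 4) (by linarith)
  have h2 := hV (c / 4) (by linarith)
  obtain ⟨X, h3, h4, h5⟩ := (h1.and (h2.and (Real.tendsto_log_atTop.eventually (eventually_ge_atTop 1)))).exists
  nlinarith

end Pool.Agent.D0H68.RV
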